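import Mathlib

/-!
Basic tools for the averaging proof on words over four letters: permuting coordinates,
types of templates, the pair correlations averaged over all permutations.
-/

namespace Pool.Agent.HJ4

open Finset

/-- number of coordinates with value `k` -/
def cnt {n : ℕ} {κ : Type*} [DecidableEq κ] (t : Fin n → κ) (k : κ) : ℕ := #{i | t i = k}

theorem exists_perm {n : ℕ} {κ : Type*} [DecidableEq κ] (t t' : Fin n → κ)
    (h : ∀ k, cnt t k = cnt t' k) : ∃ τ : Equiv.Perm (Fin n), t' = t ∘ τ := by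
  classical
  have e0 : ∀ k, Nonempty ({i // t' i = k} ≃ {i // t i = k}) := fun k => by
    refine ⟨Fintype.equivOfCardEq ?_⟩
    rw [Fintype.card_subtype, Fintype.card_subtype]
    exact (h k).symm
  let e := fun k => (e0 k).some
  refine ⟨(Equiv.sigmaFiberEquiv t').symm.trans
    ((Equiv.sigmaCongrRight e).trans (Equiv.sigmaFiberEquiv t)), ?_⟩
  funext i
  have := (e (t' i) ⟨i, rfl⟩).2
  simpa [Function.comp, Equiv.sigmaFiberEquiv] using this.symm

theorem exists_cnt {n : ℕ} {κ : Type*} [Fintype κ] [DecidableEq κ] (m : κ → ℕ)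
    (h : ∑ k, m k = n) : ∃ t : Fin n → κ, ∀ k, cnt t k = m k := by
  classical
  have hc : Fintype.card (Σ k, Fin (m k)) = Fintype.card (Fin n) := by
    simp [h]
  obtain ⟨e⟩ : Nonempty ((Σ k, Fin (m k)) ≃ Fin n) := ⟨Fintype.equivOfCardEq hc⟩
  refine ⟨fun i => (e.symm i).1, fun k => ?_⟩
  unfold cnt
  have h1 : #(univ : Finset (Fin (m k))) = #(univ.filter fun i => (e.symm i).1 = k) := by
    refine Finset.card_bij (fun j _ => e ⟨k, j⟩) ?_ ?_ ?_
    · intro j _
      simp
    · intro j _ j' _ h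
      have h2 := e.injective h
      simpa using h2
    · intro i hi
      simp only [mem_filter, mem_univ, true_and] at hi
      subst hi
      exact ⟨(e.symm i).2, mem_univ _, by simp⟩
  rw [← h1, card_univ, Fintype.card_fin]

theorem sum_cnt {n : ℕ} {κ : Type*} [Fintype κ] [DecidableEq κ] (t : Fin n → κ) :
    ∑ k, cnt t k = n := by
  have := Finset.card_eq_sum_card_fiberwise (f := t) (s := (univ : Finset (Fin n)))
    (t := (univ : Finset κ)) (fun _ _ => by simp)
  simpa [cnt] using this.symm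

theorem cnt_comp {n : ℕ} {κ κ' : Type*} [Fintype κ] [DecidableEq κ] [DecidableEq κ']
    (t : Fin n → κ) (g : κ → κ') (k' : κ') :
    cnt (g ∘ t) k' = ∑ k, if g k = k' then cnt t k else 0 := by
  have := Finset.card_eq_sum_card_fiberwise (f := t) (s := univ.filter fun i => (g ∘ t) i = k')
    (t := (univ : Finset κ)) (fun _ _ => by simp)
  unfold cnt
  rw [this]
  refine sum_congr rfl fun k _ => ?_
  split_ifs with hk
  · congr 1
    ext i
    simp only [Function.comp, mem_filter, mem_univ, true_and]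
    constructor
    · exact fun h => h.2
    · intro h
      exact ⟨by rw [h, hk], h⟩
  · rw [card_eq_zero, filter_eq_empty_iff]
    intro i hi
    simp only [Function.comp, mem_filter, mem_univ, true_and] at hi
    intro h
    exact hk (by rw [← h, hi])

theorem cnt_perm {n : ℕ} {κ : Type*} [DecidableEq κ] (t : Fin n → κ) (τ : Equiv.Perm (Fin n))
    (k : κ) : cnt (t ∘ τ) k = cnt t k := by
  unfold cnt
  refine Finset.card_bij (fun i _ => τ i) ?_ ?_ ?_
  · intro i hi
    simpa using hi
  · intro a _ b _ h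
    exact τ.injective h
  · intro b hb
    refine ⟨τ.symm b, ?_, by simp⟩
    simpa using hb

/-- word obtained by putting the letter `a` in the free places of the template -/
def ev {n : ℕ} (t : Fin n → Option (Fin 4)) (a : Fin 4) : Fin n → Fin 4 := fun i => (t i).getD a

theorem ev_comp {n : ℕ} (t : Fin n → Option (Fin 4)) (a : Fin 4) (σ : Fin n → Fin n) :
    ev (t ∘ σ) a = ev t a ∘ σ := rfl

/-- correlation averaged over permutations (not normalized) -/
def C {n : ℕ} (F : (Fin n → Fin 4) → ℤ) (x y : Fin n → Fin 4) : ℤ :=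
  ∑ σ : Equiv.Perm (Fin n), F (x ∘ σ) * F (y ∘ σ)

theorem C_symm {n : ℕ} (F : (Fin n → Fin 4) → ℤ) (x y : Fin n → Fin 4) : C F x y = C F y x := by
  unfold C
  exact sum_congr rfl fun σ _ => mul_comm _ _

theorem C_perm {n : ℕ} (F : (Fin n → Fin 4) → ℤ) (x y : Fin n → Fin 4)
    (τ : Equiv.Perm (Fin n)) : C F (x ∘ τ) (y ∘ τ) = C F x y := by
  unfold C
  exact Fintype.sum_equiv (Equiv.mulLeft τ) _ _ (fun σ => rfl)

/-- a template of the given type -/
noncomputable def tm (n : ℕ) (m : Fin 4 → ℕ) : Fin n → Option (Fin 4) := by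
  classical
  exact if h : ∃ t : Fin n → Option (Fin 4), ∀ k, cnt t (some k) = m k then h.choose
    else fun _ => none

/-- correlation of the points `a`, `b` of lines of type `m` -/
noncomputable def phi {n : ℕ} (F : (Fin n → Fin 4) → ℤ) (a b : Fin 4) (m : Fin 4 → ℕ) : ℤ :=
  C F (ev (tm n m) a) (ev (tm n m) b)

theorem tm_perm {n : ℕ} (t : Fin n → Option (Fin 4)) (m : Fin 4 → ℕ)
    (h : ∀ k, cnt t (some k) = m k) : ∃ τ : Equiv.Perm (Fin n), tm n m = t ∘ τ := by
  classical
  have hex : ∃ t : Fin n → Option (Fin 4), ∀ k, cnt t (some k) = m k := ⟨t, h⟩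
  have h1 : ∀ k, cnt (tm n m) (some k) = m k := by
    unfold tm
    rw [dif_pos hex]
    exact hex.choose_spec
  refine exists_perm _ _ ?_
  intro k
  have h2 := sum_cnt t
  have h3 := sum_cnt (tm n m)
  rw [Fintype.sum_option] at h2 h3
  simp_rw [h1] at h3
  simp_rw [h] at h2
  cases k with
  | none => omega
  | some k => rw [h, h1]

theorem phi_eq {n : ℕ} (F : (Fin n → Fin 4) → ℤ) (a b : Fin 4) (t : Fin n → Option (Fin 4))
    (m : Fin 4 → ℕ) (h : ∀ k, cnt t (some k) = m k) :
    C F (ev t a) (ev t b) = phi F a b m := by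
  obtain ⟨τ, hτ⟩ := tm_perm t m h
  unfold phi
  rw [hτ, ev_comp, ev_comp, C_perm]

/-- the sum over the six pairs of points -/
def six (g : Fin 4 → Fin 4 → ℤ) : ℤ :=
  g 0 1 + g 0 2 + g 0 3 + g 1 2 + g 1 3 + g 2 3

/-- the sum over the six pairs of the averaged correlation -/
noncomputable def Q {n : ℕ} (F : (Fin n → Fin 4) → ℤ) (m : Fin 4 → ℕ) : ℤ :=
  six fun a b => phi F a b m

theorem Q_eq {n : ℕ} (F : (Fin n → Fin 4) → ℤ) (t : Fin n → Option (Fin 4))
    (m : Fin 4 → ℕ) (h : ∀ k, cnt t (some k) = m k) :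
    Q F m = ∑ σ : Equiv.Perm (Fin n), six fun a b => F (ev (t ∘ σ) a) * F (ev (t ∘ σ) b) := by
  unfold Q six
  simp only [← phi_eq F _ _ t m h, C, ev_comp, sum_add_distrib]

end Pool.Agent.HJ4
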