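import Mathlib
import Pool.Agent.H46.HJBasic

/-!
The fifteen lines through the word `1234` and the inequality for one copy of them.
-/

namespace Pool.Agent.HJ4

open Finset

/-- the word `0123` with the places of `S` replaced by `a` -/
def wd (S : Finset (Fin 4)) (a : Fin 4) : Fin 4 → Fin 4 := fun i => if i ∈ S then a else i

theorem wd_insert (S : Finset (Fin 4)) (a : Fin 4) : wd (insert a S) a = wd S a := by
  funext i
  unfold wd
  by_cases h : i = a
  · subst h
    simp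
  · simp [h]

theorem wd_empty (a : Fin 4) : wd ∅ a = id := by
  funext i
  simp [wd]

theorem prod_powerset_wd (h : (Fin 4 → Fin 4) → ℤ) (hh : ∀ w, h w * h w = 1) (a : Fin 4) :
    ∏ S : Finset (Fin 4), h (wd S a) = 1 := by
  have h1 : (univ : Finset (Finset (Fin 4))) = (insert a ((univ : Finset (Fin 4)).erase a)).powerset := by
    rw [insert_erase (mem_univ a)]
    rfl
  rw [h1, prod_powerset_insert (notMem_erase a univ), ← prod_mul_distrib]
  refine prod_eq_one fun S _ => ?_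
  rw [wd_insert, hh]

theorem cert (h : (Fin 4 → Fin 4) → ℤ) (hh : ∀ w, h w * h w = 1) :
    ∏ S ∈ (univ : Finset (Finset (Fin 4))).erase ∅, ∏ a, h (wd S a) = 1 := by
  rw [prod_comm]
  have h1 : ∀ a ∈ (univ : Finset (Fin 4)),
      ∏ S ∈ (univ : Finset (Finset (Fin 4))).erase ∅, h (wd S a) = h id := by
    intro a _
    have h2 := prod_powerset_wd h hh a
    rw [← mul_prod_erase univ _ (mem_univ ∅), wd_empty] at h2
    calc _ = (h id * h id) * ∏ S ∈ (univ : Finset (Finset (Fin 4))).erase ∅, h (wd S a) := by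
          rw [hh, one_mul]
      _ = h id * (h id * ∏ S ∈ (univ : Finset (Finset (Fin 4))).erase ∅, h (wd S a)) := by
          ring
      _ = h id := by rw [h2, mul_one]
  rw [prod_congr rfl h1, prod_const, card_univ, Fintype.card_fin]
  calc h id ^ 4 = (h id * h id) * (h id * h id) := by ring
    _ = 1 := by rw [hh]; rfl

theorem nae (x : Fin 4 → ℤ) (hx : ∀ a, x a = 1 ∨ x a = -1)
    (hn : ¬ (x 0 = x 1 ∧ x 1 = x 2 ∧ x 2 = x 3)) :
    six (fun a b => x a * x b) ≤ 0 ∧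
      (∏ a, x a = -1 ∨ six (fun a b => x a * x b) = -2) := by
  unfold six
  rw [Fin.prod_univ_four]
  rcases hx 0 with h0 | h0 <;> rcases hx 1 with h1 | h1 <;> rcases hx 2 with h2 | h2 <;>
    rcases hx 3 with h3 | h3 <;> simp_all

/-- template of the line `S` in a copy -/
def psi (S : Finset (Fin 4)) : Fin 4 ⊕ Fin 4 → Option (Fin 4) :=
  Sum.elim some (fun i => if i ∈ S then none else some i)

/-- type of the line `S` in a copy with block sizes `q`, `d` -/
def ty (S : Finset (Fin 4)) (q d : Fin 4 → ℕ) : Fin 4 → ℕ := fun i => q i + if i ∈ S then 0 else d i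

theorem ev_psi {n : ℕ} (S : Finset (Fin 4)) (φ : Fin n → Fin 4 ⊕ Fin 4) (a : Fin 4) :
    ev (psi S ∘ φ) a = Sum.elim id (wd S a) ∘ φ := by
  funext i
  unfold ev psi wd
  simp only [Function.comp]
  rcases φ i with j | j
  · simp
  · by_cases h : j ∈ S <;> simp [h]

theorem cnt_psi {n : ℕ} (S : Finset (Fin 4)) (φ : Fin n → Fin 4 ⊕ Fin 4) (q d : Fin 4 → ℕ)
    (hq : ∀ i, cnt φ (Sum.inl i) = q i) (hd : ∀ i, cnt φ (Sum.inr i) = d i) (k : Fin 4) :
    cnt (psi S ∘ φ) (some k) = ty S q d k := by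
  rw [cnt_comp, Fintype.sum_sum_type]
  simp only [psi, Sum.elim_inl, Sum.elim_inr, hq, hd, Option.some.injEq, sum_ite_eq', mem_univ,
    if_true]
  unfold ty
  congr 1
  rw [sum_eq_single k]
  · by_cases h : k ∈ S <;> simp [h]
  · intro b _ hb
    by_cases h : b ∈ S <;> simp [h, hb]
  · simp

/-- no line is monochromatic -/
def Good {n : ℕ} (F : (Fin n → Fin 4) → ℤ) : Prop :=
  (∀ x, F x = 1 ∨ F x = -1) ∧
  ∀ t : Fin n → Option (Fin 4), (∃ i, t i = none) →
    ¬ (F (ev t 0) = F (ev t 1) ∧ F (ev t 1) = F (ev t 2) ∧ F (ev t 2) = F (ev t 3))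

theorem copy_le {n : ℕ} {F : (Fin n → Fin 4) → ℤ} (hF : Good F) (φ : Fin n → Fin 4 ⊕ Fin 4)
    (hd : ∀ i, ∃ x, φ x = Sum.inr i) :
    ∑ S ∈ (univ : Finset (Finset (Fin 4))).erase ∅,
      (six fun a b => F (ev (psi S ∘ φ) a) * F (ev (psi S ∘ φ) b)) ≤ -2 := by
  have key : ∀ S ∈ (univ : Finset (Finset (Fin 4))).erase ∅,
      (six fun a b => F (ev (psi S ∘ φ) a) * F (ev (psi S ∘ φ) b)) ≤ 0 ∧
      (∏ a, F (ev (psi S ∘ φ) a) = -1 ∨
        (six fun a b => F (ev (psi S ∘ φ) a) * F (ev (psi S ∘ φ) b)) = -2) := by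
    intro S hS
    refine nae (fun a => F (ev (psi S ∘ φ) a)) (fun a => hF.1 _) (hF.2 _ ?_)
    obtain ⟨i, hi⟩ := nonempty_iff_ne_empty.2 (ne_of_mem_erase hS)
    obtain ⟨x, hx⟩ := hd i
    exact ⟨x, by simp [psi, hx, hi]⟩
  have hex : ∃ S ∈ (univ : Finset (Finset (Fin 4))).erase ∅,
      (six fun a b => F (ev (psi S ∘ φ) a) * F (ev (psi S ∘ φ) b)) = -2 := by
    by_contra hcon
    push Not at hcon
    have h1 : ∀ S ∈ (univ : Finset (Finset (Fin 4))).erase ∅,
        ∏ a, F (Sum.elim id (wd S a) ∘ φ) = -1 := by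
      intro S hS
      have := ((key S hS).2.resolve_right (hcon S hS))
      simpa only [ev_psi] using this
    have h2 := cert (fun w => F (Sum.elim id w ∘ φ)) (fun w => by
      rcases hF.1 (Sum.elim id w ∘ φ) with h | h <;> simp [h])
    rw [prod_congr rfl h1, prod_const] at h2
    have h3 : #((univ : Finset (Finset (Fin 4))).erase ∅) = 15 := by
      rw [card_erase_of_mem (mem_univ _), card_univ, Fintype.card_finset, Fintype.card_fin]
      norm_num
    rw [h3] at h2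
    norm_num at h2
  obtain ⟨S, hS, hS2⟩ := hex
  rw [← add_sum_erase _ _ hS, hS2]
  have := sum_nonpos (s := ((univ : Finset (Finset (Fin 4))).erase ∅).erase S)
    (f := fun S => six fun a b => F (ev (psi S ∘ φ) a) * F (ev (psi S ∘ φ) b))
    (fun T hT => (key T (mem_of_mem_erase hT)).1)
  linarith

theorem Q_nonpos {n : ℕ} {F : (Fin n → Fin 4) → ℤ} (hF : Good F) (m : Fin 4 → ℕ)
    (hm : ∑ i, m i < n) : Q F m ≤ 0 := by
  obtain ⟨t, ht⟩ := exists_cnt (n := n) (fun k : Option (Fin 4) =>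
    k.elim (n - ∑ i, m i) m) (by rw [Fintype.sum_option]; simp; omega)
  rw [Q_eq F t m (fun k => ht (some k))]
  refine sum_nonpos fun σ _ => ?_
  refine (nae (fun a => F (ev (t ∘ σ) a)) (fun a => hF.1 _) (hF.2 _ ?_)).1
  have h0 : 0 < cnt t none := by
    rw [ht]
    simpa using hm
  obtain ⟨i, hi⟩ := card_pos.1 h0
  refine ⟨σ.symm i, ?_⟩
  simpa using hi

theorem copy_Q {n : ℕ} {F : (Fin n → Fin 4) → ℤ} (hF : Good F) (q d : Fin 4 → ℕ)
    (hd : ∀ i, 0 < d i) (hn : ∑ i, q i + ∑ i, d i = n) :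
    ∑ S ∈ (univ : Finset (Finset (Fin 4))).erase ∅, Q F (ty S q d) ≤ -2 * (n.factorial : ℤ) := by
  obtain ⟨φ, hφ⟩ := exists_cnt (n := n) (Sum.elim q d) (by simpa using hn)
  have h1 : ∀ S ∈ (univ : Finset (Finset (Fin 4))).erase ∅, Q F (ty S q d) =
      ∑ σ : Equiv.Perm (Fin n), six fun a b => F (ev (psi S ∘ (φ ∘ σ)) a) *
        F (ev (psi S ∘ (φ ∘ σ)) b) := by
    intro S _
    rw [Q_eq F (psi S ∘ φ) (ty S q d)
      (cnt_psi S φ q d (fun i => hφ (Sum.inl i)) (fun i => hφ (Sum.inr i)))]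
    rfl
  rw [sum_congr rfl h1, sum_comm]
  have h2 : ∀ σ ∈ (univ : Finset (Equiv.Perm (Fin n))),
      (∑ S ∈ (univ : Finset (Finset (Fin 4))).erase ∅, six fun a b =>
        F (ev (psi S ∘ (φ ∘ σ)) a) * F (ev (psi S ∘ (φ ∘ σ)) b)) ≤ -2 := by
    intro σ _
    refine copy_le hF (φ ∘ σ) fun i => ?_
    have h0 : 0 < cnt φ (Sum.inr i) := by
      rw [hφ]
      exact hd i
    obtain ⟨x, hx⟩ := card_pos.1 h0
    refine ⟨σ.symm x, ?_⟩
    simpa using hx
  refine (sum_le_sum h2).trans ?_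
  rw [sum_const, card_univ, Fintype.card_perm, Fintype.card_fin, nsmul_eq_mul]
  linarith

end Pool.Agent.HJ4
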