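import Mathlib
import Pool.Agent.H46.HJCert

/-!
Geometric lines: letters are pairs `(τ, u)`; the group consists of coordinate permutations and
flips of `u`. Correlations averaged over this group.
-/

namespace Pool.Agent.HJ4

open Finset

/-- points -/
abbrev Pt (n : ℕ) := Fin n → Bool × Bool

/-- group action -/
def act {n : ℕ} (σ : Equiv.Perm (Fin n)) (r : Fin n → Bool) (x : Pt n) : Pt n :=
  fun i => ((x (σ i)).1, xor (x (σ i)).2 (r i))

/-- averaged correlation -/
def Cg {n : ℕ} (F : Pt n → ℤ) (x y : Pt n) : ℤ :=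
  ∑ σ : Equiv.Perm (Fin n), ∑ r : Fin n → Bool, F (act σ r x) * F (act σ r y)

theorem Cg_symm {n : ℕ} (F : Pt n → ℤ) (x y : Pt n) : Cg F x y = Cg F y x := by
  unfold Cg
  exact sum_congr rfl fun σ _ => sum_congr rfl fun r _ => mul_comm _ _

/-- flipping by the vector `r0` -/
def xorEquiv {n : ℕ} (r0 : Fin n → Bool) : (Fin n → Bool) ≃ (Fin n → Bool) where
  toFun r := fun i => xor (r0 i) (r i)
  invFun r := fun i => xor (r0 i) (r i)
  left_inv r := by
    funext i
    simp
  right_inv r := by
    funext i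
    simp

theorem Cg_act {n : ℕ} (F : Pt n → ℤ) (x y : Pt n) (τ : Equiv.Perm (Fin n)) (r0 : Fin n → Bool) :
    Cg F (act τ r0 x) (act τ r0 y) = Cg F x y := by
  unfold Cg
  refine Fintype.sum_equiv (Equiv.mulLeft τ) _ _ fun σ => ?_
  refine Fintype.sum_equiv (xorEquiv (r0 ∘ σ)) _ _ fun r => ?_
  have h : ∀ z : Pt n, act σ r (act τ r0 z) = act (Equiv.mulLeft τ σ) (xorEquiv (r0 ∘ σ) r) z := by
    intro z
    funext i
    simp only [act, xorEquiv, Equiv.coe_fn_mk, Function.comp, Equiv.coe_mulLeft,
      Equiv.Perm.coe_mul, Bool.xor_assoc]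
  rw [h, h]

/-- key of a pair of points -/
def key {n : ℕ} (x y : Pt n) : Fin n → Bool × Bool × Bool :=
  fun i => ((x i).1, (y i).1, xor (x i).2 (y i).2)

theorem Cg_key {n : ℕ} (F : Pt n → ℤ) (x y x' y' : Pt n)
    (h : ∀ k, cnt (key x y) k = cnt (key x' y') k) : Cg F x y = Cg F x' y' := by
  obtain ⟨τ, hτ⟩ := exists_perm (key x y) (key x' y') h
  let r0 : Fin n → Bool := fun i => xor (x' i).2 (x (τ i)).2
  have h0 : ∀ i, (x' i).1 = (x (τ i)).1 ∧ (y' i).1 = (y (τ i)).1 ∧
      xor (x' i).2 (y' i).2 = xor (x (τ i)).2 (y (τ i)).2 := by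
    intro i
    have := congrFun hτ i
    simp only [key, Function.comp, Prod.mk.injEq] at this
    exact this
  have hx : x' = act τ r0 x := by
    funext i
    obtain ⟨h1, h2, h3⟩ := h0 i
    refine Prod.ext h1 ?_
    simp only [act, r0]
    cases (x' i).2 <;> cases (x (τ i)).2 <;> rfl
  have hy : y' = act τ r0 y := by
    funext i
    obtain ⟨h1, h2, h3⟩ := h0 i
    refine Prod.ext h2 ?_
    simp only [act, r0]
    revert h3
    cases (x' i).2 <;> cases (x (τ i)).2 <;> cases (y' i).2 <;> cases (y (τ i)).2 <;> simp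
  rw [hx, hy, Cg_act]

theorem Cg_self {n : ℕ} {F : Pt n → ℤ} (hF : ∀ x, F x = 1 ∨ F x = -1) (x : Pt n) :
    Cg F x x = (n.factorial : ℤ) * 2 ^ n := by
  unfold Cg
  have : ∀ σ ∈ (univ : Finset (Equiv.Perm (Fin n))), ∑ r : Fin n → Bool,
      F (act σ r x) * F (act σ r x) = 2 ^ n := by
    intro σ _
    have h2 : ∀ r ∈ (univ : Finset (Fin n → Bool)), F (act σ r x) * F (act σ r x) = 1 := by
      intro r _
      rcases hF (act σ r x) with h | h <;> simp [h]
    rw [sum_congr rfl h2, sum_const, card_univ, nsmul_eq_mul, mul_one]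
    simp
  rw [sum_congr rfl this, sum_const, card_univ, Fintype.card_perm, Fintype.card_fin,
    nsmul_eq_mul]

theorem sum_Cg_nonneg {n : ℕ} (F : Pt n → ℤ) {ι : Type*} (R : Finset ι) (y : ι → Pt n) :
    0 ≤ ∑ i ∈ R, ∑ j ∈ R, Cg F (y i) (y j) := by
  have : ∑ i ∈ R, ∑ j ∈ R, Cg F (y i) (y j) =
      ∑ σ : Equiv.Perm (Fin n), ∑ r : Fin n → Bool, (∑ i ∈ R, F (act σ r (y i))) ^ 2 := by
    unfold Cg
    simp_rw [sq, sum_mul_sum]
    have h1 : ∀ i ∈ R, ∑ j ∈ R, ∑ σ : Equiv.Perm (Fin n), ∑ r : Fin n → Bool,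
        F (act σ r (y i)) * F (act σ r (y j)) = ∑ σ : Equiv.Perm (Fin n), ∑ r : Fin n → Bool,
        ∑ j ∈ R, F (act σ r (y i)) * F (act σ r (y j)) := by
      intro i _
      rw [sum_comm]
      exact sum_congr rfl fun σ _ => sum_comm
    rw [sum_congr rfl h1, sum_comm]
    exact sum_congr rfl fun σ _ => sum_comm
  rw [this]
  exact sum_nonneg fun σ _ => sum_nonneg fun r _ => sq_nonneg _

/-- point of the line of the template `t` with the letter `c` in the active places -/
def evg {n : ℕ} (t : Fin n → Option Bool) (c : Bool × Bool) : Pt n :=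
  fun i => (t i).elim c (fun b => (b, false))

/-- a template with `a` ones and `z` zeros -/
noncomputable def tg (n a z : ℕ) : Fin n → Option Bool := by
  classical
  exact if h : ∃ t : Fin n → Option Bool, cnt t (some true) = a ∧ cnt t (some false) = z then
    h.choose else fun _ => none

/-- correlations of a line of type `(a, z)` -/
noncomputable def phg {n : ℕ} (F : Pt n → ℤ) (c c' : Bool × Bool) (a z : ℕ) : ℤ :=
  Cg F (evg (tg n a z) c) (evg (tg n a z) c')

theorem cnt_none_g {n : ℕ} (t : Fin n → Option Bool) :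
    cnt t none + cnt t (some true) + cnt t (some false) = n := by
  have h := sum_cnt t
  rw [Fintype.sum_option, Fintype.sum_bool] at h
  omega

theorem tg_spec {n a z : ℕ} (h : a + z ≤ n) :
    cnt (tg n a z) (some true) = a ∧ cnt (tg n a z) (some false) = z := by
  classical
  have hex : ∃ t : Fin n → Option Bool, cnt t (some true) = a ∧ cnt t (some false) = z := by
    obtain ⟨t, ht⟩ := exists_cnt (n := n) (fun k : Option Bool =>
      k.elim (n - a - z) (fun b => if b then a else z))
      (by rw [Fintype.sum_option, Fintype.sum_bool]; simp; omega)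
    exact ⟨t, by simpa using ht (some true), by simpa using ht (some false)⟩
  unfold tg
  rw [dif_pos hex]
  exact hex.choose_spec

/-- key of the pair of points of a line with letters `c`, `c'` -/
theorem key_evg {n : ℕ} (t : Fin n → Option Bool) (c c' : Bool × Bool) :
    key (evg t c) (evg t c') =
      (fun k : Option Bool => k.elim (c.1, c'.1, xor c.2 c'.2) (fun b => (b, b, false))) ∘ t := by
  funext i
  simp only [key, evg, Function.comp]
  cases t i <;> simp

/-- evaluation of the correlation of two points by the key -/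
theorem phg_eq {n : ℕ} (F : Pt n → ℤ) (c c' : Bool × Bool) (a z : ℕ) (x y : Pt n)
    (t : Fin n → Option Bool) (ha : cnt t (some true) = a) (hz : cnt t (some false) = z)
    (hk : key x y = (fun k : Option Bool =>
      k.elim (c.1, c'.1, xor c.2 c'.2) (fun b => (b, b, false))) ∘ t) :
    Cg F x y = phg F c c' a z := by
  unfold phg
  refine Cg_key F _ _ _ _ fun k => ?_
  rw [hk, key_evg, cnt_comp, cnt_comp]
  refine sum_congr rfl fun k' _ => ?_
  have h1 := cnt_none_g t
  obtain ⟨h2, h3⟩ := tg_spec (n := n) (a := a) (z := z) (by omega)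
  have h4 := cnt_none_g (tg n a z)
  have h5 : cnt t k' = cnt (tg n a z) k' := by
    rcases k' with _ | b
    · omega
    · cases b
      · rw [hz, h3]
      · rw [ha, h2]
  rw [h5]

end Pool.Agent.HJ4
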