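import Mathlib
import Pool.Agent.H46.HJBasic

/-!
The chain inequality: for every direction the sum of the averaged correlations over all types
is at least minus half the number of chain points.
-/

namespace Pool.Agent.HJ4

open Finset

/-- all types of lines -/
def Typ (n : ℕ) : Finset (Fin 4 → ℕ) :=
  (Fintype.piFinset fun _ => range (n + 1)).filter fun m => ∑ i, m i < n

theorem mem_Typ {n : ℕ} {m : Fin 4 → ℕ} : m ∈ Typ n ↔ ∑ i, m i < n := by
  unfold Typ
  rw [mem_filter, Fintype.mem_piFinset]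
  constructor
  · exact fun h => h.2
  · intro h
    refine ⟨fun i => ?_, h⟩
    have := single_le_sum (f := m) (fun j _ => Nat.zero_le _) (mem_univ i)
    rw [mem_range]
    omega

/-- points of the chain -/
def ch (n M k : ℕ) (π : Fin 4 → Fin 4) (i : ℕ) : Fin n → Fin 4 := fun x =>
  if (x : ℕ) < i then π 0 else if (x : ℕ) < M then π 1 else if (x : ℕ) < M + k then π 2 else π 3

/-- templates of the lines of the chain -/
def ct (n M k : ℕ) (π : Fin 4 → Fin 4) (i j : ℕ) : Fin n → Option (Fin 4) := fun x =>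
  if (x : ℕ) < i then some (π 0) else if (x : ℕ) < j then none else
    if (x : ℕ) < M then some (π 1) else if (x : ℕ) < M + k then some (π 2) else some (π 3)

theorem ev_ct_zero (n M k : ℕ) (π : Fin 4 → Fin 4) (i j : ℕ) (hij : i ≤ j) :
    ev (ct n M k π i j) (π 0) = ch n M k π j := by
  funext x
  unfold ev ct ch
  by_cases h1 : (x : ℕ) < i
  · have h2 : (x : ℕ) < j := by omega
    simp [h1, h2]
  · by_cases h2 : (x : ℕ) < j
    · simp [h1, h2]
    · simp only [h1, h2, if_false]
      split_ifs <;> rfl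

theorem ev_ct_one (n M k : ℕ) (π : Fin 4 → Fin 4) (i j : ℕ) (hjM : j ≤ M) :
    ev (ct n M k π i j) (π 1) = ch n M k π i := by
  funext x
  unfold ev ct ch
  by_cases h1 : (x : ℕ) < i
  · simp [h1]
  · by_cases h2 : (x : ℕ) < j
    · have h3 : (x : ℕ) < M := by omega
      simp [h1, h2, h3]
    · simp only [h1, h2, if_false]
      split_ifs <;> rfl

theorem card_between (n a b : ℕ) (hb : b ≤ n) :
    #(univ.filter fun x : Fin n => a ≤ (x : ℕ) ∧ (x : ℕ) < b) = b - a := by
  have h : (univ.filter fun x : Fin n => a ≤ (x : ℕ) ∧ (x : ℕ) < b).map Fin.valEmbedding =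
      Ico a b := by
    ext x
    simp only [mem_map, mem_filter, mem_univ, true_and, Fin.valEmbedding_apply, mem_Ico]
    constructor
    · rintro ⟨y, hy, rfl⟩
      exact hy
    · intro hx
      exact ⟨⟨x, by omega⟩, hx, rfl⟩
  rw [← card_map Fin.valEmbedding, h, Nat.card_Ico]

theorem cnt_ct (n M k l : ℕ) (π : Equiv.Perm (Fin 4)) (i j : ℕ) (hij : i ≤ j) (hjM : j ≤ M)
    (hn : M + k + l = n) (m : Fin 4 → ℕ) (h0 : m (π 0) = i) (h1 : m (π 1) = M - j)
    (h2 : m (π 2) = k) (h3 : m (π 3) = l) (b : Fin 4) :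
    cnt (ct n M k π i j) (some b) = m b := by
  obtain ⟨c, rfl⟩ := π.surjective b
  have e01 : π 0 ≠ π 1 := fun h => absurd (π.injective h) (by decide)
  have e02 : π 0 ≠ π 2 := fun h => absurd (π.injective h) (by decide)
  have e03 : π 0 ≠ π 3 := fun h => absurd (π.injective h) (by decide)
  have e12 : π 1 ≠ π 2 := fun h => absurd (π.injective h) (by decide)
  have e13 : π 1 ≠ π 3 := fun h => absurd (π.injective h) (by decide)
  have e23 : π 2 ≠ π 3 := fun h => absurd (π.injective h) (by decide)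
  unfold cnt
  have hc : c = 0 ∨ c = 1 ∨ c = 2 ∨ c = 3 := by
    revert c
    decide
  rcases hc with rfl | rfl | rfl | rfl
  · have h : (univ.filter fun x => ct n M k π i j x = some (π 0)) =
        univ.filter fun x : Fin n => 0 ≤ (x : ℕ) ∧ (x : ℕ) < i := by
      ext x
      rw [mem_filter, mem_filter]
      unfold ct
      split_ifs <;> simp_all <;> omega
    rw [h, card_between n 0 i (by omega), h0, Nat.sub_zero]
  · have h : (univ.filter fun x => ct n M k π i j x = some (π 1)) =
        univ.filter fun x : Fin n => j ≤ (x : ℕ) ∧ (x : ℕ) < M := by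
      ext x
      rw [mem_filter, mem_filter]
      unfold ct
      split_ifs <;> simp_all <;> omega
    rw [h, card_between n j M (by omega), h1]
  · have h : (univ.filter fun x => ct n M k π i j x = some (π 2)) =
        univ.filter fun x : Fin n => M ≤ (x : ℕ) ∧ (x : ℕ) < M + k := by
      ext x
      rw [mem_filter, mem_filter]
      unfold ct
      split_ifs <;> simp_all <;> omega
    rw [h, card_between n M (M + k) (by omega), h2]
    omega
  · have h : (univ.filter fun x => ct n M k π i j x = some (π 3)) =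
        univ.filter fun x : Fin n => M + k ≤ (x : ℕ) ∧ (x : ℕ) < n := by
      ext x
      have := x.2
      rw [mem_filter, mem_filter]
      unfold ct
      split_ifs <;> simp_all <;> omega
    rw [h, card_between n (M + k) n le_rfl, h3]
    omega

theorem sum_C_nonneg {n : ℕ} (F : (Fin n → Fin 4) → ℤ) (R : Finset ℕ)
    (y : ℕ → Fin n → Fin 4) : 0 ≤ ∑ i ∈ R, ∑ j ∈ R, C F (y i) (y j) := by
  have : ∑ i ∈ R, ∑ j ∈ R, C F (y i) (y j) =
      ∑ σ : Equiv.Perm (Fin n), (∑ i ∈ R, F (y i ∘ σ)) ^ 2 := by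
    unfold C
    simp_rw [sq, sum_mul_sum]
    rw [sum_comm]
    refine Eq.trans (sum_congr rfl fun i _ => sum_comm) ?_
    rw [sum_comm]
    refine sum_congr rfl fun σ _ => ?_
    rw [sum_comm]
  rw [this]
  exact sum_nonneg fun σ _ => sq_nonneg _

theorem C_self {n : ℕ} {F : (Fin n → Fin 4) → ℤ} (hF : ∀ x, F x = 1 ∨ F x = -1)
    (x : Fin n → Fin 4) : C F x x = (n.factorial : ℤ) := by
  unfold C
  have : ∀ σ ∈ (univ : Finset (Equiv.Perm (Fin n))), F (x ∘ σ) * F (x ∘ σ) = 1 := by
    intro σ _
    rcases hF (x ∘ σ) with h | h <;> simp [h]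
  rw [sum_congr rfl this, sum_const, card_univ, Fintype.card_perm, Fintype.card_fin,
    nsmul_eq_mul, mul_one]

/-- the sum over ordered pairs splits in the diagonal and twice the upper triangle -/
theorem sum_square (R : Finset ℕ) (G : ℕ → ℕ → ℤ) (hs : ∀ i j, G i j = G j i) :
    ∑ i ∈ R, ∑ j ∈ R, G i j =
      ∑ i ∈ R, G i i + 2 * ∑ p ∈ (R ×ˢ R).filter (fun p => p.1 < p.2), G p.1 p.2 := by
  rw [← sum_product' R R G]
  have h1 := sum_filter_add_sum_filter_not (R ×ˢ R) (fun p : ℕ × ℕ => p.1 < p.2)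
    (fun p => G p.1 p.2)
  have h2 := sum_filter_add_sum_filter_not ((R ×ˢ R).filter fun p : ℕ × ℕ => ¬ p.1 < p.2)
    (fun p : ℕ × ℕ => p.2 < p.1) (fun p => G p.1 p.2)
  have h3 : ∑ p ∈ ((R ×ˢ R).filter fun p : ℕ × ℕ => ¬ p.1 < p.2).filter
      (fun p : ℕ × ℕ => p.2 < p.1), G p.1 p.2 =
      ∑ p ∈ (R ×ˢ R).filter (fun p => p.1 < p.2), G p.1 p.2 := by
    refine sum_nbij' (fun p => (p.2, p.1)) (fun p => (p.2, p.1)) ?_ ?_ ?_ ?_ ?_
    · intro p hp
      simp only [mem_filter, mem_product] at hp ⊢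
      exact ⟨⟨hp.1.1.2, hp.1.1.1⟩, hp.2⟩
    · intro p hp
      simp only [mem_filter, mem_product] at hp ⊢
      exact ⟨⟨⟨hp.1.2, hp.1.1⟩, by omega⟩, hp.2⟩
    · intro p _
      rfl
    · intro p _
      rfl
    · intro p _
      exact hs _ _
  have h4 : ∑ p ∈ ((R ×ˢ R).filter fun p : ℕ × ℕ => ¬ p.1 < p.2).filter
      (fun p : ℕ × ℕ => ¬ p.2 < p.1), G p.1 p.2 = ∑ i ∈ R, G i i := by
    refine sum_nbij' (fun p => p.1) (fun i => (i, i)) ?_ ?_ ?_ ?_ ?_
    · intro p hp
      simp only [mem_filter, mem_product] at hp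
      exact hp.1.1.1
    · intro i hi
      simp only [mem_filter, mem_product]
      exact ⟨⟨⟨hi, hi⟩, by omega⟩, by omega⟩
    · intro p hp
      simp only [mem_filter, mem_product] at hp
      ext
      · rfl
      · show p.1 = p.2
        omega
    · intro i _
      rfl
    · intro p hp
      simp only [mem_filter, mem_product] at hp
      have : p.2 = p.1 := by omega
      rw [this]
  linarith

theorem chain_ineq {n : ℕ} {F : (Fin n → Fin 4) → ℤ} (hF : ∀ x, F x = 1 ∨ F x = -1)
    (π : Equiv.Perm (Fin 4)) (M k l : ℕ) (hn : M + k + l = n) :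
    -((n.factorial : ℤ) * (M + 1)) ≤ 2 * ∑ m ∈ (Typ n).filter (fun m => m (π 2) = k ∧ m (π 3) = l),
      phi F (π 0) (π 1) m := by
  have h1 := sum_C_nonneg F (range (M + 1)) (ch n M k π)
  rw [sum_square _ _ (fun i j => C_symm F _ _)] at h1
  have h2 : ∑ i ∈ range (M + 1), C F (ch n M k π i) (ch n M k π i) =
      (n.factorial : ℤ) * (M + 1) := by
    rw [sum_congr rfl fun i _ => C_self hF _, sum_const, card_range, nsmul_eq_mul]
    push_cast
    ring
  have h3 : ∑ p ∈ (range (M + 1) ×ˢ range (M + 1)).filter (fun p => p.1 < p.2),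
      C F (ch n M k π p.1) (ch n M k π p.2) =
      ∑ m ∈ (Typ n).filter (fun m => m (π 2) = k ∧ m (π 3) = l), phi F (π 0) (π 1) m := by
    symm
    refine sum_nbij' (fun m => (m (π 0), M - m (π 1)))
      (fun p => fun b => if b = π 0 then p.1 else if b = π 1 then M - p.2 else
        if b = π 2 then k else l) ?_ ?_ ?_ ?_ ?_
    · intro m hm
      rw [mem_filter, mem_Typ, ← Equiv.sum_comp π, Fin.sum_univ_four] at hm
      rw [mem_filter, mem_product, mem_range, mem_range]
      dsimp only
      omega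
    · intro p hp
      rw [mem_filter, mem_product, mem_range, mem_range] at hp
      rw [mem_filter, mem_Typ, ← Equiv.sum_comp π, Fin.sum_univ_four]
      simp only [EmbeddingLike.apply_eq_iff_eq]
      simp
      omega
    · intro m hm
      rw [mem_filter, mem_Typ, ← Equiv.sum_comp π, Fin.sum_univ_four] at hm
      funext b
      obtain ⟨c, rfl⟩ := π.surjective b
      simp only [EmbeddingLike.apply_eq_iff_eq]
      have hc : c = 0 ∨ c = 1 ∨ c = 2 ∨ c = 3 := by
        revert c
        decide
      rcases hc with rfl | rfl | rfl | rfl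
      · simp
      · simp
        omega
      · simp [hm.2.1]
      · simp [hm.2.2]
    · intro p hp
      rw [mem_filter, mem_product, mem_range, mem_range] at hp
      simp only [EmbeddingLike.apply_eq_iff_eq]
      ext
      · simp
      · simp
        omega
    · intro m hm
      rw [mem_filter, mem_Typ, ← Equiv.sum_comp π, Fin.sum_univ_four] at hm
      dsimp only
      rw [← phi_eq F (π 0) (π 1) (ct n M k π (m (π 0)) (M - m (π 1))) m
        (fun b => cnt_ct n M k l π _ _ (by omega) (by omega) hn m rfl (by omega) hm.2.1 hm.2.2 b),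
        ev_ct_zero n M k π _ _ (by omega), ev_ct_one n M k π _ _ (by omega), C_symm]
  rw [h2, h3] at h1
  linarith

end Pool.Agent.HJ4
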