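import Mathlib
import Pool.Agent.H46.GBasic
import Pool.Agent.H46.HJChain

/-!
Chain and row inequalities for geometric lines.
-/

namespace Pool.Agent.HJ4

open Finset

/-- template with an active interval `[i, j)` -/
def tij (n i j : ℕ) : Fin n → Option Bool := fun x =>
  if (x : ℕ) < i then some true else if (x : ℕ) < j then none else some false

theorem cnt_tij (n i j : ℕ) (hij : i ≤ j) (hj : j ≤ n) :
    cnt (tij n i j) (some true) = i ∧ cnt (tij n i j) (some false) = n - j := by
  constructor
  · have h : (univ.filter fun x => tij n i j x = some true) =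
        univ.filter fun x : Fin n => 0 ≤ (x : ℕ) ∧ (x : ℕ) < i := by
      ext x
      rw [mem_filter, mem_filter]
      unfold tij
      split_ifs <;> simp_all
    unfold cnt
    rw [h, card_between n 0 i (by omega), Nat.sub_zero]
  · have h : (univ.filter fun x => tij n i j x = some false) =
        univ.filter fun x : Fin n => j ≤ (x : ℕ) ∧ (x : ℕ) < n := by
      ext x
      have := x.2
      rw [mem_filter, mem_filter]
      unfold tij
      split_ifs <;> simp_all <;> omega
    unfold cnt
    rw [h, card_between n j n le_rfl]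

/-- the chain inequality, first form: the flip of `u` accompanies the change of type iff `s` -/
theorem chain_g {n : ℕ} {F : Pt n → ℤ} (hF : ∀ x, F x = 1 ∨ F x = -1) (s : Bool) :
    -((n.factorial : ℤ) * 2 ^ n * (n + 1)) ≤
      2 * ∑ p ∈ (range (n + 1) ×ˢ range (n + 1)).filter (fun p => p.1 < p.2),
        phg F (false, false) (true, s) p.1 (n - p.2) := by
  let y : ℕ → Pt n := fun i x => (decide ((x : ℕ) < i), decide ((x : ℕ) < i) && s)
  have h1 := sum_Cg_nonneg F (range (n + 1)) y
  rw [sum_square _ _ (fun i j => Cg_symm F _ _)] at h1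
  have h2 : ∑ i ∈ range (n + 1), Cg F (y i) (y i) = (n.factorial : ℤ) * 2 ^ n * (n + 1) := by
    rw [sum_congr rfl fun i _ => Cg_self hF _, sum_const, card_range, nsmul_eq_mul]
    push_cast
    ring
  have h3 : ∑ p ∈ (range (n + 1) ×ˢ range (n + 1)).filter (fun p => p.1 < p.2),
      Cg F (y p.1) (y p.2) = ∑ p ∈ (range (n + 1) ×ˢ range (n + 1)).filter (fun p => p.1 < p.2),
        phg F (false, false) (true, s) p.1 (n - p.2) := by
    refine sum_congr rfl fun p hp => ?_
    rw [mem_filter, mem_product, mem_range, mem_range] at hp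
    obtain ⟨ha, hz⟩ := cnt_tij n p.1 p.2 (by omega) (by omega)
    refine phg_eq F _ _ _ _ _ _ (tij n p.1 p.2) ha hz ?_
    funext x
    simp only [key, y, Function.comp, tij]
    by_cases c1 : (x : ℕ) < p.1
    · have c2 : (x : ℕ) < p.2 := by omega
      simp [c1, c2]
    · by_cases c2 : (x : ℕ) < p.2
      · simp [c1, c2]
      · simp [c1, c2]
  rw [h2, h3] at h1
  linarith

/-- sum over pairs at distance `m` -/
theorem sum_dist (g : ℕ → ℤ) (D : ℕ) :
    ∑ p ∈ (range D ×ˢ range D).filter (fun p => p.1 < p.2), g (p.2 - p.1) =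
      ∑ m ∈ range (D - 1), ((D : ℤ) - (m + 1)) * g (m + 1) := by
  have h0 : ∀ D : ℕ, ∑ p ∈ (range D ×ˢ range D).filter (fun p => p.1 < p.2), g (p.2 - p.1) =
      ∑ j ∈ range D, ∑ i ∈ range j, g (j - i) := by
    intro D
    rw [sum_sigma']
    refine sum_nbij' (fun p => ⟨p.2, p.1⟩) (fun q => (q.2, q.1)) ?_ ?_ ?_ ?_ ?_
    · intro p hp
      rw [mem_filter, mem_product, mem_range, mem_range] at hp
      rw [mem_sigma, mem_range, mem_range]
      exact ⟨hp.1.2, hp.2⟩
    · intro q hq
      rw [mem_sigma, mem_range, mem_range] at hq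
      rw [mem_filter, mem_product, mem_range, mem_range]
      exact ⟨⟨by omega, hq.1⟩, hq.2⟩
    · intro p _
      rfl
    · intro q _
      rfl
    · intro p _
      rfl
  rw [h0]
  have h1 : ∀ j : ℕ, ∑ i ∈ range j, g (j - i) = ∑ m ∈ range j, g (m + 1) := by
    intro j
    rw [← sum_range_reflect]
    refine sum_congr rfl fun i hi => ?_
    rw [mem_range] at hi
    congr 1
    omega
  simp_rw [h1]
  induction D with
  | zero => simp
  | succ D ih =>
    rw [sum_range_succ, ih]
    rcases Nat.eq_zero_or_pos D with rfl | hD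
    · simp
    · obtain ⟨E, rfl⟩ := Nat.exists_eq_add_of_lt hD
      simp only [zero_add, Nat.add_sub_cancel]
      rw [sum_range_succ, sum_range_succ]
      have h3 : ∑ m ∈ range E, (((E + 1 : ℕ) : ℤ) - (m + 1)) * g (m + 1) +
          ∑ m ∈ range E, g (m + 1) = ∑ m ∈ range E, (((E + 1 + 1 : ℕ) : ℤ) - (m + 1)) * g (m + 1) := by
        rw [← sum_add_distrib]
        refine sum_congr rfl fun m _ => ?_
        push_cast
        ring
      have h4 : (((E + 1 + 1 : ℕ) : ℤ) - ((E : ℤ) + 1)) * g (E + 1) = g (E + 1) := by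
        push_cast
        ring
      rw [h4]
      linarith

/-- rows: points with the same types and flips inside the zero part -/
def yr (n a : ℕ) (s : Fin n → Bool) : Pt n := fun x =>
  if (x : ℕ) < a then (true, false) else (false, s x)

theorem row_C {n : ℕ} (F : Pt n → ℤ) (a : ℕ) (ha : a ≤ n) (s s' : Fin n → Bool) (e : ℕ)
    (he : #(univ.filter fun x : Fin n => a ≤ (x : ℕ) ∧ s x ≠ s' x) = e) :
    Cg F (yr n a s) (yr n a s') = phg F (false, false) (false, true) a (n - a - e) := by
  let t : Fin n → Option Bool := fun x => if (x : ℕ) < a then some true else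
    if s x ≠ s' x then none else some false
  have h1 : cnt t (some true) = a := by
    have h : (univ.filter fun x => t x = some true) =
        univ.filter fun x : Fin n => 0 ≤ (x : ℕ) ∧ (x : ℕ) < a := by
      ext x
      rw [mem_filter, mem_filter]
      simp only [t]
      split_ifs <;> simp_all
    unfold cnt
    rw [h, card_between n 0 a ha, Nat.sub_zero]
  have h2 : cnt t none = e := by
    rw [← he]
    unfold cnt
    congr 1
    ext x
    rw [mem_filter, mem_filter]
    simp only [t]
    split_ifs <;> simp_all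
  have h3 := cnt_none_g t
  refine phg_eq F _ _ _ _ _ _ t h1 (by omega) ?_
  funext x
  simp only [key, yr, Function.comp, t]
  by_cases c1 : (x : ℕ) < a
  · simp [c1]
  · by_cases c2 : s x = s' x
    · simp [c1, c2]
    · have c3 : xor (s x) (s' x) = true := by
        revert c2
        cases s x <;> cases s' x <;> simp
      simp [c1, c2, c3]

/-- the two families of a row -/
def sr (n a : ℕ) (p : ℕ × Bool) : Fin n → Bool := fun x => xor p.2 (decide ((x : ℕ) < a + p.1))

theorem card_diff {n a : ℕ} (ha : a ≤ n) (k k' : ℕ) (hk : k ≤ k') (hk' : k' ≤ n - a) :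
    #(univ.filter fun x : Fin n => a ≤ (x : ℕ) ∧
      (decide ((x : ℕ) < a + k) ≠ decide ((x : ℕ) < a + k'))) = k' - k := by
  have h : (univ.filter fun x : Fin n => a ≤ (x : ℕ) ∧
      (decide ((x : ℕ) < a + k) ≠ decide ((x : ℕ) < a + k'))) =
      univ.filter fun x : Fin n => a + k ≤ (x : ℕ) ∧ (x : ℕ) < a + k' := by
    ext x
    rw [mem_filter, mem_filter]
    by_cases c1 : (x : ℕ) < a + k <;> by_cases c2 : (x : ℕ) < a + k' <;> simp [c1, c2] <;> omega
  rw [h, card_between n (a + k) (a + k') (by omega)]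
  omega

theorem card_same {n a : ℕ} (ha : a ≤ n) (k k' : ℕ) (hk : k ≤ k') (hk' : k' ≤ n - a) :
    #(univ.filter fun x : Fin n => a ≤ (x : ℕ) ∧
      (decide ((x : ℕ) < a + k) = decide ((x : ℕ) < a + k'))) = n - a - (k' - k) := by
  have h1 := card_diff ha k k' hk hk'
  have h2 := card_filter_add_card_filter_not (s := univ.filter fun x : Fin n => a ≤ (x : ℕ) ∧ (x : ℕ) < n)
    (fun x : Fin n => decide ((x : ℕ) < a + k) = decide ((x : ℕ) < a + k'))
  rw [card_between n a n le_rfl, filter_filter, filter_filter] at h2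
  have h3 : (univ.filter fun x : Fin n => (a ≤ (x : ℕ) ∧ (x : ℕ) < n) ∧
      (decide ((x : ℕ) < a + k) = decide ((x : ℕ) < a + k'))) =
      univ.filter fun x : Fin n => a ≤ (x : ℕ) ∧
      (decide ((x : ℕ) < a + k) = decide ((x : ℕ) < a + k')) := by
    ext x
    have := x.2
    rw [mem_filter, mem_filter]
    tauto
  have h4 : (univ.filter fun x : Fin n => (a ≤ (x : ℕ) ∧ (x : ℕ) < n) ∧
      ¬ (decide ((x : ℕ) < a + k) = decide ((x : ℕ) < a + k'))) =
      univ.filter fun x : Fin n => a ≤ (x : ℕ) ∧
      (decide ((x : ℕ) < a + k) ≠ decide ((x : ℕ) < a + k')) := by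
    ext x
    have := x.2
    rw [mem_filter, mem_filter]
    tauto
  rw [h3, h4, h1] at h2
  omega

end Pool.Agent.HJ4
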