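import Mathlib
import Pool.Agent.H46.GChain

/-!
The row inequalities for geometric lines.
-/

namespace Pool.Agent.HJ4

open Finset

/-- correlation of two points of a row at distance `m` -/
noncomputable def arow {n : ℕ} (F : Pt n → ℤ) (a m : ℕ) : ℤ :=
  phg F (false, false) (false, true) a (n - a - m)

theorem row_same {n : ℕ} (F : Pt n → ℤ) {a : ℕ} (ha : a ≤ n) (k k' : ℕ) (hk : k ≤ k')
    (hk' : k' ≤ n - a) (b : Bool) :
    Cg F (yr n a (sr n a (k, b))) (yr n a (sr n a (k', b))) = arow F a (k' - k) := by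
  refine row_C F a ha _ _ _ ?_
  rw [← card_diff ha k k' hk hk']
  congr 1
  ext x
  rw [mem_filter, mem_filter]
  simp only [sr]
  cases b <;> cases decide ((x : ℕ) < a + k) <;> cases decide ((x : ℕ) < a + k') <;> simp

theorem row_opp {n : ℕ} (F : Pt n → ℤ) {a : ℕ} (ha : a ≤ n) (k k' : ℕ) (hk : k ≤ k')
    (hk' : k' ≤ n - a) (b : Bool) :
    Cg F (yr n a (sr n a (k, b))) (yr n a (sr n a (k', !b))) = arow F a (n - a - (k' - k)) := by
  refine row_C F a ha _ _ _ ?_
  rw [← card_same ha k k' hk hk']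
  congr 1
  ext x
  rw [mem_filter, mem_filter]
  simp only [sr]
  cases b <;> cases decide ((x : ℕ) < a + k) <;> cases decide ((x : ℕ) < a + k') <;> simp

theorem arow_zero {n : ℕ} {F : Pt n → ℤ} (hF : ∀ x, F x = 1 ∨ F x = -1) {a : ℕ} (ha : a ≤ n) :
    arow F a 0 = (n.factorial : ℤ) * 2 ^ n := by
  have h := row_same F ha 0 0 le_rfl (Nat.zero_le _) false
  rw [Nat.sub_self] at h
  rw [← h, Cg_self hF]

theorem row_g {n : ℕ} {F : Pt n → ℤ} (hF : ∀ x, F x = 1 ∨ F x = -1) {a : ℕ} (ha : a < n) :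
    -((n.factorial : ℤ) * 2 ^ n) ≤
      2 * ∑ m ∈ range (n - a - 1), arow F a (m + 1) + arow F a (n - a) := by
  obtain ⟨D, hD⟩ : ∃ D, D = n - a := ⟨_, rfl⟩
  have hD0 : 0 < D := by omega
  have h1 := sum_Cg_nonneg F (range D ×ˢ (univ : Finset Bool)) (fun p => yr n a (sr n a p))
  let G : ℕ → ℕ → ℤ := fun k k' => ∑ b : Bool, ∑ b' : Bool,
    Cg F (yr n a (sr n a (k, b))) (yr n a (sr n a (k', b')))
  have h2 : ∑ p ∈ range D ×ˢ (univ : Finset Bool), ∑ q ∈ range D ×ˢ (univ : Finset Bool),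
      Cg F (yr n a (sr n a p)) (yr n a (sr n a q)) = ∑ k ∈ range D, ∑ k' ∈ range D, G k k' := by
    rw [sum_product]
    refine sum_congr rfl fun k _ => ?_
    have : ∀ b : Bool, ∑ q ∈ range D ×ˢ (univ : Finset Bool),
        Cg F (yr n a (sr n a (k, b))) (yr n a (sr n a q)) =
        ∑ k' ∈ range D, ∑ b' : Bool, Cg F (yr n a (sr n a (k, b))) (yr n a (sr n a (k', b'))) := by
      intro b
      rw [sum_product]
    simp_rw [this]
    rw [sum_comm]
  have hG : ∀ k k', G k k' = G k' k := by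
    intro k k'
    simp only [G]
    rw [sum_comm]
    exact sum_congr rfl fun b _ => sum_congr rfl fun b' _ => Cg_symm F _ _
  have hG2 : ∀ k k', k ≤ k' → k' ≤ D → G k k' = 2 * (arow F a (k' - k) + arow F a (D - (k' - k))) := by
    intro k k' hk hk'
    simp only [G]
    rw [Fintype.sum_bool, Fintype.sum_bool, Fintype.sum_bool]
    have e1 := row_same F ha.le k k' hk (by omega) true
    have e2 := row_same F ha.le k k' hk (by omega) false
    have e3 := row_opp F ha.le k k' hk (by omega) true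
    have e4 := row_opp F ha.le k k' hk (by omega) false
    simp only [Bool.not_true, Bool.not_false] at e3 e4
    rw [← hD] at e3 e4
    rw [e1, e2, e3, e4]
    ring
  rw [h2, sum_square _ _ hG] at h1
  have h3 : ∑ i ∈ range D, G i i = (D : ℤ) * (2 * (arow F a 0 + arow F a D)) := by
    have : ∀ i ∈ range D, G i i = 2 * (arow F a 0 + arow F a D) := by
      intro i hi
      rw [mem_range] at hi
      rw [hG2 i i le_rfl hi.le, Nat.sub_self, Nat.sub_zero]
    rw [sum_congr rfl this, sum_const, card_range, nsmul_eq_mul]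
  have h4 : ∑ p ∈ (range D ×ˢ range D).filter (fun p => p.1 < p.2), G p.1 p.2 =
      ∑ p ∈ (range D ×ˢ range D).filter (fun p => p.1 < p.2),
        (fun m => 2 * (arow F a m + arow F a (D - m))) (p.2 - p.1) := by
    refine sum_congr rfl fun p hp => ?_
    rw [mem_filter, mem_product, mem_range, mem_range] at hp
    exact hG2 p.1 p.2 hp.2.le hp.1.2.le
  rw [sum_dist (fun m => 2 * (arow F a m + arow F a (D - m)))] at h4
  have h5 : ∑ m ∈ range (D - 1), ((D : ℤ) - (m + 1)) * (2 * (arow F a (m + 1) +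
      arow F a (D - (m + 1)))) = (D : ℤ) * (2 * ∑ m ∈ range (D - 1), arow F a (m + 1)) := by
    have e1 : ∑ m ∈ range (D - 1), ((D : ℤ) - (m + 1)) * arow F a (D - (m + 1)) =
        ∑ m ∈ range (D - 1), ((m : ℤ) + 1) * arow F a (m + 1) := by
      rw [← sum_range_reflect]
      refine sum_congr rfl fun m hm => ?_
      rw [mem_range] at hm
      have e2 : D - (D - 1 - 1 - m + 1) = m + 1 := by omega
      rw [e2]
      have e3 : ((D - 1 - 1 - m : ℕ) : ℤ) = (D : ℤ) - 1 - 1 - m := by omega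
      rw [e3]
      ring
    have e4 : ∑ m ∈ range (D - 1), ((D : ℤ) - (m + 1)) * (2 * (arow F a (m + 1) +
        arow F a (D - (m + 1)))) = 2 * (∑ m ∈ range (D - 1), ((D : ℤ) - (m + 1)) * arow F a (m + 1) +
        ∑ m ∈ range (D - 1), ((D : ℤ) - (m + 1)) * arow F a (D - (m + 1))) := by
      rw [← sum_add_distrib, mul_sum]
      exact sum_congr rfl fun m _ => by ring
    rw [e4, e1, ← sum_add_distrib, mul_sum, mul_sum, mul_sum]
    exact sum_congr rfl fun m _ => by ring
  rw [h3, h4, h5, arow_zero hF ha.le] at h1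
  rw [← hD]
  have h6 : (0 : ℤ) ≤ (2 * (D : ℤ)) * ((n.factorial : ℤ) * 2 ^ n +
      (2 * ∑ m ∈ range (D - 1), arow F a (m + 1) + arow F a D)) := by linarith
  have h7 : (0 : ℤ) < 2 * (D : ℤ) := by exact_mod_cast (by omega : 0 < 2 * D)
  have h8 := nonneg_of_mul_nonneg_right h6 h7
  linarith

/-- exchanging the two types -/
def swp {n : ℕ} (x : Pt n) : Pt n := fun i => (!(x i).1, (x i).2)

theorem Cg_swp {n : ℕ} (F : Pt n → ℤ) (x y : Pt n) :
    Cg (fun x => F (swp x)) x y = Cg F (swp x) (swp y) := rfl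

theorem phg_swp {n : ℕ} (F : Pt n → ℤ) (c c' : Bool × Bool) (a z : ℕ) (h : a + z ≤ n) :
    phg (fun x => F (swp x)) c c' a z = phg F (!c.1, c.2) (!c'.1, c'.2) z a := by
  obtain ⟨h1, h2⟩ := tg_spec h
  let t' : Fin n → Option Bool := (fun k : Option Bool => k.map (fun b => !b)) ∘ tg n a z
  have e1 : cnt t' (some true) = z := by
    rw [cnt_comp, Fintype.sum_option, Fintype.sum_bool]
    simp [h2]
  have e2 : cnt t' (some false) = a := by
    rw [cnt_comp, Fintype.sum_option, Fintype.sum_bool]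
    simp [h1]
  unfold phg
  rw [Cg_swp]
  refine phg_eq F _ _ _ _ _ _ t' e1 e2 ?_
  funext x
  simp only [key, swp, evg, Function.comp, t']
  cases tg n a z x <;> simp

theorem col_g {n : ℕ} {F : Pt n → ℤ} (hF : ∀ x, F x = 1 ∨ F x = -1) {b : ℕ} (hb : 0 < b)
    (hbn : b ≤ n) :
    -((n.factorial : ℤ) * 2 ^ n) ≤
      2 * ∑ m ∈ range (b - 1), phg F (true, false) (true, true) (b - (m + 1)) (n - b) +
        phg F (true, false) (true, true) 0 (n - b) := by
  have h := row_g (F := fun x => F (swp x)) (fun x => hF _) (a := n - b) (by omega)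
  unfold arow at h
  have e1 : n - (n - b) = b := by omega
  rw [e1] at h
  rw [phg_swp F _ _ _ _ (by omega), Nat.sub_self] at h
  have e2 : ∀ m ∈ range (b - 1), phg (fun x => F (swp x)) (false, false) (false, true) (n - b)
      (b - (m + 1)) = phg F (true, false) (true, true) (b - (m + 1)) (n - b) := by
    intro m hm
    rw [mem_range] at hm
    rw [phg_swp F _ _ _ _ (by omega)]
    rfl
  rw [sum_congr rfl e2] at h
  exact h

end Pool.Agent.HJ4
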