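import Mathlib
import Pool.Agent.H46.GRow

/-!
The fifteen lines for geometric lines, and the inequalities for one type.
-/

namespace Pool.Agent.HJ4

open Finset

/-- the four letters -/
def le4 : Fin 4 → Bool × Bool := ![(true, false), (true, true), (false, false), (false, true)]

/-- points of the geometric line through `x` with active set `S` -/
def Lg {n : ℕ} (x : Pt n) (S : Finset (Fin n)) (c : Bool × Bool) : Pt n :=
  fun i => if i ∈ S then (c.1, xor c.2 (x i).2) else x i

/-- no geometric line is monochromatic -/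
def GoodG {n : ℕ} (F : Pt n → ℤ) : Prop :=
  (∀ x, F x = 1 ∨ F x = -1) ∧
  ∀ (x : Pt n) (S : Finset (Fin n)), S.Nonempty →
    ¬ (F (Lg x S (le4 0)) = F (Lg x S (le4 1)) ∧ F (Lg x S (le4 1)) = F (Lg x S (le4 2)) ∧
      F (Lg x S (le4 2)) = F (Lg x S (le4 3)))

theorem nae_cross (x : Fin 4 → ℤ) (hx : ∀ a, x a = 1 ∨ x a = -1)
    (hn : ¬ (x 0 = x 1 ∧ x 1 = x 2 ∧ x 2 = x 3)) :
    x 0 * x 2 + x 1 * x 3 + (x 0 * x 3 + x 1 * x 2) ≤ 0 := by
  rcases hx 0 with h0 | h0 <;> rcases hx 1 with h1 | h1 <;> rcases hx 2 with h2 | h2 <;>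
    rcases hx 3 with h3 | h3 <;> simp_all

theorem act_evg {n : ℕ} (t : Fin n → Option Bool) (σ : Equiv.Perm (Fin n)) (r : Fin n → Bool)
    (c : Bool × Bool) : act σ r (evg t c) =
      Lg (act σ r (evg t (false, false))) (univ.filter fun i => t (σ i) = none) c := by
  funext i
  simp only [act, evg, Lg, mem_filter, mem_univ, true_and]
  cases h : t (σ i) with
  | none => simp
  | some b => simp

theorem six_Cg {n : ℕ} (F : Pt n → ℤ) (y : Fin 4 → Pt n) :
    six (fun i j => Cg F (y i) (y j)) = ∑ σ : Equiv.Perm (Fin n), ∑ r : Fin n → Bool,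
      six fun i j => F (act σ r (y i)) * F (act σ r (y j)) := by
  unfold six Cg
  simp only [sum_add_distrib]

/-- sum over the six pairs -/
noncomputable def Qg {n : ℕ} (F : Pt n → ℤ) (a z : ℕ) : ℤ :=
  six fun i j => phg F (le4 i) (le4 j) a z

theorem line_good {n : ℕ} {F : Pt n → ℤ} (hF : GoodG F) (t : Fin n → Option Bool)
    (ht : 0 < cnt t none) (σ : Equiv.Perm (Fin n)) (r : Fin n → Bool) :
    ¬ (F (act σ r (evg t (le4 0))) = F (act σ r (evg t (le4 1))) ∧
      F (act σ r (evg t (le4 1))) = F (act σ r (evg t (le4 2))) ∧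
      F (act σ r (evg t (le4 2))) = F (act σ r (evg t (le4 3)))) := by
  rw [act_evg, act_evg t σ r (le4 1), act_evg t σ r (le4 2), act_evg t σ r (le4 3)]
  refine hF.2 _ _ ?_
  obtain ⟨i, hi⟩ := card_pos.1 ht
  refine ⟨σ.symm i, ?_⟩
  simpa using hi

theorem Qg_nonpos {n : ℕ} {F : Pt n → ℤ} (hF : GoodG F) {a z : ℕ} (h : a + z < n) :
    Qg F a z ≤ 0 := by
  unfold Qg phg
  rw [six_Cg F (fun i => evg (tg n a z) (le4 i))]
  obtain ⟨h1, h2⟩ := tg_spec (n := n) (a := a) (z := z) (by omega)
  have h3 := cnt_none_g (tg n a z)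
  refine sum_nonpos fun σ _ => sum_nonpos fun r _ => ?_
  exact (nae (fun i => F (act σ r (evg (tg n a z) (le4 i)))) (fun i => hF.1 _)
    (line_good hF _ (by omega) σ r)).1

theorem phg_symm {n : ℕ} (F : Pt n → ℤ) (c c' : Bool × Bool) (a z : ℕ) :
    phg F c c' a z = phg F c' c a z := Cg_symm F _ _

theorem phg_congr {n : ℕ} (F : Pt n → ℤ) (c c' d d' : Bool × Bool) (a z : ℕ)
    (h1 : c.1 = d.1) (h2 : c'.1 = d'.1) (h3 : xor c.2 c'.2 = xor d.2 d'.2) :
    phg F c c' a z = phg F d d' a z := by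
  unfold phg
  refine Cg_key F _ _ _ _ fun k => ?_
  rw [key_evg, key_evg, h1, h2, h3]

theorem Qg_eq {n : ℕ} (F : Pt n → ℤ) (a z : ℕ) :
    Qg F a z = 2 * phg F (false, false) (true, false) a z +
      2 * phg F (false, false) (true, true) a z + phg F (false, false) (false, true) a z +
      phg F (true, false) (true, true) a z := by
  have h1 : phg F (true, true) (false, true) a z = phg F (true, false) (false, false) a z :=
    phg_congr F _ _ _ _ a z rfl rfl rfl
  have h2 : phg F (true, false) (false, true) a z = phg F (true, true) (false, false) a z :=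
    phg_congr F _ _ _ _ a z rfl rfl rfl
  have h3 := phg_symm F (true, false) (false, false) a z
  have h4 := phg_symm F (true, true) (false, false) a z
  unfold Qg six
  simp only [le4, Matrix.cons_val_zero, Matrix.cons_val_one, Matrix.cons_val]
  rw [h1, h2, h3, h4]
  ring

theorem cross_nonpos {n : ℕ} {F : Pt n → ℤ} (hF : GoodG F) {a z : ℕ} (h : a + z < n) :
    phg F (false, false) (true, false) a z + phg F (false, false) (true, true) a z ≤ 0 := by
  obtain ⟨h1, h2⟩ := tg_spec (n := n) (a := a) (z := z) (by omega)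
  have h3 := cnt_none_g (tg n a z)
  have h4 : phg F (true, false) (false, false) a z + phg F (true, true) (false, true) a z +
      (phg F (true, false) (false, true) a z + phg F (true, true) (false, false) a z) ≤ 0 := by
    unfold phg Cg
    rw [← sum_add_distrib, ← sum_add_distrib, ← sum_add_distrib]
    refine sum_nonpos fun σ _ => ?_
    rw [← sum_add_distrib, ← sum_add_distrib, ← sum_add_distrib]
    refine sum_nonpos fun r _ => ?_
    exact nae_cross (fun i => F (act σ r (evg (tg n a z) (le4 i)))) (fun i => hF.1 _)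
      (line_good hF _ (by omega) σ r)
  have e1 : phg F (true, true) (false, true) a z = phg F (true, false) (false, false) a z :=
    phg_congr F _ _ _ _ a z rfl rfl rfl
  have e2 : phg F (true, false) (false, true) a z = phg F (true, true) (false, false) a z :=
    phg_congr F _ _ _ _ a z rfl rfl rfl
  have e3 := phg_symm F (true, false) (false, false) a z
  have e4 := phg_symm F (true, true) (false, false) a z
  rw [e1, e2, e3, e4] at h4
  linarith

/-- points of a copy -/
def cpt {n : ℕ} (φ : Fin n → Fin 4 ⊕ Bool) (w : Fin 4 → Fin 4) : Pt n :=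
  Sum.elim (fun i => le4 (w i)) (fun b => (b, false)) ∘ φ

theorem act_cpt {n : ℕ} (φ : Fin n → Fin 4 ⊕ Bool) (S : Finset (Fin 4)) (a : Fin 4)
    (σ : Equiv.Perm (Fin n)) (r : Fin n → Bool) : act σ r (cpt φ (wd S a)) =
      Lg (act σ r (Sum.elim (fun i => if i ∈ S then (false, false) else le4 i)
        (fun b => (b, false)) ∘ φ)) (univ.filter fun i => ∃ j ∈ S, φ (σ i) = Sum.inl j) (le4 a) := by
  funext i
  simp only [act, cpt, Lg, mem_filter, mem_univ, true_and, Function.comp]
  rcases h : φ (σ i) with j | b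
  · by_cases hj : j ∈ S
    · simp [wd, hj]
    · simp [wd, hj]
  · simp

theorem copy_le_g {n : ℕ} {F : Pt n → ℤ} (hF : GoodG F) (φ : Fin n → Fin 4 ⊕ Bool)
    (hd : ∀ i, ∃ x, φ x = Sum.inl i) (σ : Equiv.Perm (Fin n)) (r : Fin n → Bool) :
    ∑ S ∈ (univ : Finset (Finset (Fin 4))).erase ∅,
      (six fun a b => F (act σ r (cpt φ (wd S a))) * F (act σ r (cpt φ (wd S b)))) ≤ -2 := by
  have key : ∀ S ∈ (univ : Finset (Finset (Fin 4))).erase ∅,
      (six fun a b => F (act σ r (cpt φ (wd S a))) * F (act σ r (cpt φ (wd S b)))) ≤ 0 ∧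
      (∏ a, F (act σ r (cpt φ (wd S a))) = -1 ∨
        (six fun a b => F (act σ r (cpt φ (wd S a))) * F (act σ r (cpt φ (wd S b)))) = -2) := by
    intro S hS
    refine nae (fun a => F (act σ r (cpt φ (wd S a)))) (fun a => hF.1 _) ?_
    rw [act_cpt, act_cpt φ S 1, act_cpt φ S 2, act_cpt φ S 3]
    refine hF.2 _ _ ?_
    obtain ⟨i, hi⟩ := nonempty_iff_ne_empty.2 (ne_of_mem_erase hS)
    obtain ⟨x, hx⟩ := hd i
    exact ⟨σ.symm x, by simp [hx, hi]⟩
  have hex : ∃ S ∈ (univ : Finset (Finset (Fin 4))).erase ∅,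
      (six fun a b => F (act σ r (cpt φ (wd S a))) * F (act σ r (cpt φ (wd S b)))) = -2 := by
    by_contra hcon
    push Not at hcon
    have h1 : ∀ S ∈ (univ : Finset (Finset (Fin 4))).erase ∅,
        ∏ a, F (act σ r (cpt φ (wd S a))) = -1 := fun S hS =>
      (key S hS).2.resolve_right (hcon S hS)
    have h2 := cert (fun w => F (act σ r (cpt φ w))) (fun w => by
      rcases hF.1 (act σ r (cpt φ w)) with h | h <;> simp [h])
    rw [prod_congr rfl h1, prod_const] at h2
    have h3 : #((univ : Finset (Finset (Fin 4))).erase ∅) = 15 := by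
      rw [card_erase_of_mem (mem_univ _), card_univ, Fintype.card_finset, Fintype.card_fin]
      norm_num
    rw [h3] at h2
    norm_num at h2
  obtain ⟨S, hS, hS2⟩ := hex
  rw [← add_sum_erase _ _ hS, hS2]
  have := sum_nonpos (s := ((univ : Finset (Finset (Fin 4))).erase ∅).erase S)
    (f := fun S => six fun a b => F (act σ r (cpt φ (wd S a))) * F (act σ r (cpt φ (wd S b))))
    (fun T hT => (key T (mem_of_mem_erase hT)).1)
  linarith

/-- numbers of fixed coordinates of the two types on the line `S` of a copy -/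
def fa (S : Finset (Fin 4)) (q0 : ℕ) (d : Fin 4 → ℕ) : ℕ :=
  (if 0 ∈ S then 0 else d 0) + (if 1 ∈ S then 0 else d 1) + q0

def fz (S : Finset (Fin 4)) (qi : ℕ) (d : Fin 4 → ℕ) : ℕ :=
  (if 2 ∈ S then 0 else d 2) + (if 3 ∈ S then 0 else d 3) + qi

theorem copy_Qg {n : ℕ} {F : Pt n → ℤ} (hF : GoodG F) (q0 qi : ℕ) (d : Fin 4 → ℕ)
    (hd : ∀ i, 0 < d i) (hn : ∑ i, d i + q0 + qi = n) :
    ∑ S ∈ (univ : Finset (Finset (Fin 4))).erase ∅, Qg F (fa S q0 d) (fz S qi d) ≤
      -2 * ((n.factorial : ℤ) * 2 ^ n) := by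
  obtain ⟨φ, hφ⟩ := exists_cnt (n := n) (Sum.elim d (fun b : Bool => if b = true then q0 else qi))
    (by rw [Fintype.sum_sum_type, Fintype.sum_bool]; simp; omega)
  have h1 : ∀ S ∈ (univ : Finset (Finset (Fin 4))).erase ∅, Qg F (fa S q0 d) (fz S qi d) =
      ∑ σ : Equiv.Perm (Fin n), ∑ r : Fin n → Bool, six fun a b =>
        F (act σ r (cpt φ (wd S a))) * F (act σ r (cpt φ (wd S b))) := by
    intro S _
    rw [← six_Cg F (fun a => cpt φ (wd S a))]
    unfold Qg
    let g : Fin 4 ⊕ Bool → Option Bool :=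
      Sum.elim (fun i => if i ∈ S then none else some (le4 i).1) some
    have e1 : cnt (g ∘ φ) (some true) = fa S q0 d := by
      rw [cnt_comp, Fintype.sum_sum_type, Fin.sum_univ_four, Fintype.sum_bool]
      simp only [hφ, g, Sum.elim_inl, Sum.elim_inr, le4, fa]
      by_cases c0 : (0 : Fin 4) ∈ S <;> by_cases c1 : (1 : Fin 4) ∈ S <;>
        by_cases c2 : (2 : Fin 4) ∈ S <;> by_cases c3 : (3 : Fin 4) ∈ S <;>
        simp [c0, c1, c2, c3]
    have e2 : cnt (g ∘ φ) (some false) = fz S qi d := by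
      rw [cnt_comp, Fintype.sum_sum_type, Fin.sum_univ_four, Fintype.sum_bool]
      simp only [hφ, g, Sum.elim_inl, Sum.elim_inr, le4, fz]
      by_cases c0 : (0 : Fin 4) ∈ S <;> by_cases c1 : (1 : Fin 4) ∈ S <;>
        by_cases c2 : (2 : Fin 4) ∈ S <;> by_cases c3 : (3 : Fin 4) ∈ S <;>
        simp [c0, c1, c2, c3]
    have e3 : ∀ a b : Fin 4, Cg F (cpt φ (wd S a)) (cpt φ (wd S b)) =
        phg F (le4 a) (le4 b) (fa S q0 d) (fz S qi d) := by
      intro a b
      refine phg_eq F _ _ _ _ _ _ (g ∘ φ) e1 e2 ?_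
      funext x
      simp only [key, cpt, Function.comp, g]
      rcases φ x with j | c
      · by_cases hj : j ∈ S <;> simp [wd, hj]
      · simp
    simp only [e3]
  rw [sum_congr rfl h1, sum_comm]
  have h2 : ∀ σ ∈ (univ : Finset (Equiv.Perm (Fin n))),
      (∑ S ∈ (univ : Finset (Finset (Fin 4))).erase ∅, ∑ r : Fin n → Bool, six fun a b =>
        F (act σ r (cpt φ (wd S a))) * F (act σ r (cpt φ (wd S b)))) ≤ -2 * 2 ^ n := by
    intro σ _
    rw [sum_comm]
    have h3 : ∀ r ∈ (univ : Finset (Fin n → Bool)),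
        (∑ S ∈ (univ : Finset (Finset (Fin 4))).erase ∅, six fun a b =>
        F (act σ r (cpt φ (wd S a))) * F (act σ r (cpt φ (wd S b)))) ≤ -2 := by
      intro r _
      refine copy_le_g hF φ (fun i => ?_) σ r
      have h0 : 0 < cnt φ (Sum.inl i) := by
        rw [hφ]
        exact hd i
      obtain ⟨x, hx⟩ := card_pos.1 h0
      exact ⟨x, by simpa using hx⟩
    refine (sum_le_sum h3).trans ?_
    rw [sum_const, card_univ, nsmul_eq_mul]
    simp
    linarith
  refine (sum_le_sum h2).trans ?_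
  rw [sum_const, card_univ, Fintype.card_perm, Fintype.card_fin, nsmul_eq_mul]
  linarith

end Pool.Agent.HJ4
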