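import Mathlib
import Pool.Agent.H46.GCopy

/-!
Summation of the chain and row inequalities with the capacities as weights.
-/

namespace Pool.Agent.HJ4

open Finset

/-- capacities -/
def cap (n a b : ℕ) : ℕ := if a = 0 then (if b = n then 1 else 2) else (if b = n then 2 else 4)

theorem sum_rows (n : ℕ) (f : ℕ → ℕ → ℤ) :
    ∑ p ∈ (range (n + 1) ×ˢ range (n + 1)).filter (fun p => p.1 < p.2), f p.1 p.2 =
      ∑ a ∈ range n, ∑ m ∈ range (n - a), f a (a + (m + 1)) := by
  rw [sum_sigma']
  refine sum_nbij' (fun p => ⟨p.1, p.2 - p.1 - 1⟩) (fun q => (q.1, q.1 + (q.2 + 1))) ?_ ?_ ?_ ?_ ?_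
  · intro p hp
    rw [mem_filter, mem_product, mem_range, mem_range] at hp
    rw [mem_sigma, mem_range, mem_range]
    dsimp only
    omega
  · intro q hq
    rw [mem_sigma, mem_range, mem_range] at hq
    rw [mem_filter, mem_product, mem_range, mem_range]
    dsimp only
    omega
  · intro p hp
    rw [mem_filter, mem_product, mem_range, mem_range] at hp
    ext
    · rfl
    · dsimp only
      omega
  · intro q hq
    rw [mem_sigma, mem_range, mem_range] at hq
    dsimp only
    have : q.1 + (q.2 + 1) - q.1 - 1 = q.2 := by omega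
    rw [this]
  · intro p hp
    rw [mem_filter, mem_product, mem_range, mem_range] at hp
    dsimp only
    congr 1
    omega

theorem sum_cols (n : ℕ) (f : ℕ → ℕ → ℤ) :
    ∑ p ∈ (range (n + 1) ×ˢ range (n + 1)).filter (fun p => p.1 < p.2), f p.1 p.2 =
      ∑ b ∈ range n, ∑ m ∈ range (b + 1), f (b + 1 - (m + 1)) (b + 1) := by
  rw [sum_sigma']
  refine sum_nbij' (fun p => ⟨p.2 - 1, p.2 - p.1 - 1⟩) (fun q => (q.1 + 1 - (q.2 + 1), q.1 + 1))
    ?_ ?_ ?_ ?_ ?_
  · intro p hp
    rw [mem_filter, mem_product, mem_range, mem_range] at hp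
    rw [mem_sigma, mem_range, mem_range]
    dsimp only
    omega
  · intro q hq
    rw [mem_sigma, mem_range, mem_range] at hq
    rw [mem_filter, mem_product, mem_range, mem_range]
    dsimp only
    omega
  · intro p hp
    rw [mem_filter, mem_product, mem_range, mem_range] at hp
    ext
    · dsimp only
      omega
    · dsimp only
      omega
  · rintro ⟨q1, q2⟩ hq
    rw [mem_sigma, mem_range, mem_range] at hq
    dsimp only at hq ⊢
    have e1 : q1 + 1 - 1 = q1 := by omega
    have e2 : q1 + 1 - (q1 + 1 - (q2 + 1)) - 1 = q2 := by omega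
    rw [e1, e2]
  · intro p hp
    rw [mem_filter, mem_product, mem_range, mem_range] at hp
    dsimp only
    congr 1
    · omega
    · omega

theorem row_total {n : ℕ} {F : Pt n → ℤ} (hF : ∀ x, F x = 1 ∨ F x = -1) (hn : 1 ≤ n) :
    -((n.factorial : ℤ) * 2 ^ n * (2 * n - 1)) ≤
      ∑ p ∈ (range (n + 1) ×ˢ range (n + 1)).filter (fun p => p.1 < p.2),
        (cap n p.1 p.2 : ℤ) * phg F (false, false) (false, true) p.1 (n - p.2) := by
  rw [sum_rows n (fun a b => (cap n a b : ℤ) * phg F (false, false) (false, true) a (n - b))]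
  obtain ⟨N, rfl⟩ : ∃ N, n = N + 1 := ⟨n - 1, by omega⟩
  generalize hG : (((N + 1).factorial : ℤ) * 2 ^ (N + 1)) = G
  have h1 : ∀ a, a < N + 1 → ∑ m ∈ range (N + 1 - a), ((cap (N + 1) a (a + (m + 1)) : ℕ) : ℤ) *
      phg F (false, false) (false, true) a (N + 1 - (a + (m + 1))) =
      (if a = 0 then 1 else 2) * (2 * ∑ m ∈ range (N + 1 - a - 1), arow F a (m + 1) +
        arow F a (N + 1 - a)) := by
    intro a ha
    obtain ⟨D, hD⟩ : ∃ D, N + 1 - a = D + 1 := ⟨N - a, by omega⟩
    rw [hD, Nat.add_sub_cancel, sum_range_succ]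
    have e1 : ∀ m ∈ range D, ((cap (N + 1) a (a + (m + 1)) : ℕ) : ℤ) *
        phg F (false, false) (false, true) a (N + 1 - (a + (m + 1))) =
        (if a = 0 then 2 else 4) * arow F a (m + 1) := by
      intro m hm
      rw [mem_range] at hm
      have e2 : a + (m + 1) ≠ N + 1 := by omega
      unfold cap arow
      rw [if_neg e2, if_neg e2, Nat.sub_sub]
      split_ifs <;> rfl
    rw [sum_congr rfl e1, ← mul_sum]
    have e3 : a + (D + 1) = N + 1 := by omega
    have e4 : arow F a (D + 1) = phg F (false, false) (false, true) a (N + 1 - (a + (D + 1))) := by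
      unfold arow
      rw [Nat.sub_sub]
    rw [e4]
    unfold cap
    rw [if_pos e3, if_pos e3]
    split_ifs
    · push_cast
      ring
    · push_cast
      ring
  have h2 : ∀ a, a < N + 1 → -G ≤ 2 * ∑ m ∈ range (N + 1 - a - 1), arow F a (m + 1) +
        arow F a (N + 1 - a) := by
    intro a ha
    rw [← hG]
    exact row_g hF ha
  rw [sum_range_succ']
  have h3 : ∑ k ∈ range N, (-(2 * G)) ≤ ∑ k ∈ range N, ∑ m ∈ range (N + 1 - (k + 1)),
      ((cap (N + 1) (k + 1) (k + 1 + (m + 1)) : ℕ) : ℤ) *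
      phg F (false, false) (false, true) (k + 1) (N + 1 - (k + 1 + (m + 1))) := by
    refine sum_le_sum fun k hk => ?_
    rw [mem_range] at hk
    rw [h1 (k + 1) (by omega), if_neg (by omega)]
    have := h2 (k + 1) (by omega)
    linarith
  rw [sum_const, card_range, nsmul_eq_mul] at h3
  have h4 := h1 0 (by omega)
  rw [if_pos rfl] at h4
  have h5 := h2 0 (by omega)
  have h6 : -(G * (2 * ((N + 1 : ℕ) : ℤ) - 1)) = (N : ℤ) * (-(2 * G)) + (-G) := by
    push_cast
    ring
  rw [h6]
  refine add_le_add h3 ?_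
  rw [h4, one_mul]
  exact h5

theorem col_total {n : ℕ} {F : Pt n → ℤ} (hF : ∀ x, F x = 1 ∨ F x = -1) (hn : 1 ≤ n) :
    -((n.factorial : ℤ) * 2 ^ n * (2 * n - 1)) ≤
      ∑ p ∈ (range (n + 1) ×ˢ range (n + 1)).filter (fun p => p.1 < p.2),
        (cap n p.1 p.2 : ℤ) * phg F (true, false) (true, true) p.1 (n - p.2) := by
  rw [sum_cols n (fun a b => (cap n a b : ℤ) * phg F (true, false) (true, true) a (n - b))]
  obtain ⟨N, rfl⟩ : ∃ N, n = N + 1 := ⟨n - 1, by omega⟩
  generalize hG : (((N + 1).factorial : ℤ) * 2 ^ (N + 1)) = G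
  have h1 : ∀ b, b < N + 1 → ∑ m ∈ range (b + 1), ((cap (N + 1) (b + 1 - (m + 1)) (b + 1) : ℕ) : ℤ) *
      phg F (true, false) (true, true) (b + 1 - (m + 1)) (N + 1 - (b + 1)) =
      (if b = N then 1 else 2) * (2 * ∑ m ∈ range b,
        phg F (true, false) (true, true) (b + 1 - (m + 1)) (N + 1 - (b + 1)) +
        phg F (true, false) (true, true) 0 (N + 1 - (b + 1))) := by
    intro b hb
    rw [sum_range_succ]
    have e1 : ∀ m ∈ range b, ((cap (N + 1) (b + 1 - (m + 1)) (b + 1) : ℕ) : ℤ) *
        phg F (true, false) (true, true) (b + 1 - (m + 1)) (N + 1 - (b + 1)) =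
        (if b = N then 2 else 4) *
          phg F (true, false) (true, true) (b + 1 - (m + 1)) (N + 1 - (b + 1)) := by
      intro m hm
      rw [mem_range] at hm
      have e2 : b + 1 - (m + 1) ≠ 0 := by omega
      unfold cap
      rw [if_neg e2]
      by_cases hbN : b = N
      · rw [if_pos (by omega), if_pos hbN]
        rfl
      · rw [if_neg (by omega), if_neg hbN]
        rfl
    rw [sum_congr rfl e1, ← mul_sum, Nat.sub_self]
    unfold cap
    rw [if_pos rfl]
    by_cases hbN : b = N
    · rw [if_pos hbN, if_pos (show b + 1 = N + 1 by omega), if_pos hbN]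
      push_cast
      ring
    · rw [if_neg hbN, if_neg (show ¬ b + 1 = N + 1 by omega), if_neg hbN]
      push_cast
      ring
  have h2 : ∀ b, b < N + 1 → -G ≤ 2 * ∑ m ∈ range b,
        phg F (true, false) (true, true) (b + 1 - (m + 1)) (N + 1 - (b + 1)) +
        phg F (true, false) (true, true) 0 (N + 1 - (b + 1)) := by
    intro b hb
    rw [← hG]
    have := col_g hF (b := b + 1) (by omega) (by omega)
    rw [Nat.add_sub_cancel] at this
    exact this
  rw [sum_range_succ]
  have h3 : ∑ k ∈ range N, (-(2 * G)) ≤ ∑ b ∈ range N, ∑ m ∈ range (b + 1),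
      ((cap (N + 1) (b + 1 - (m + 1)) (b + 1) : ℕ) : ℤ) *
      phg F (true, false) (true, true) (b + 1 - (m + 1)) (N + 1 - (b + 1)) := by
    refine sum_le_sum fun k hk => ?_
    rw [mem_range] at hk
    rw [h1 k (by omega), if_neg (by omega)]
    have := h2 k (by omega)
    linarith
  rw [sum_const, card_range, nsmul_eq_mul] at h3
  have h4 := h1 N (by omega)
  rw [if_pos rfl] at h4
  have h5 := h2 N (by omega)
  have h6 : -(G * (2 * ((N + 1 : ℕ) : ℤ) - 1)) = (N : ℤ) * (-(2 * G)) + (-G) := by
    push_cast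
    ring
  rw [h6]
  refine add_le_add h3 ?_
  rw [h4, one_mul]
  exact h5

theorem target_total {n : ℕ} {F : Pt n → ℤ} (hF : ∀ x, F x = 1 ∨ F x = -1) (hn : 1 ≤ n) :
    -((n.factorial : ℤ) * 2 ^ n * (12 * n + 6)) ≤
      ∑ p ∈ (range (n + 1) ×ˢ range (n + 1)).filter (fun p => p.1 < p.2),
        (8 * phg F (false, false) (true, false) p.1 (n - p.2) +
          8 * phg F (false, false) (true, true) p.1 (n - p.2) +
          (cap n p.1 p.2 : ℤ) * (phg F (false, false) (false, true) p.1 (n - p.2) +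
            phg F (true, false) (true, true) p.1 (n - p.2))) := by
  have h1 := chain_g hF false
  have h2 := chain_g hF true
  have h3 := row_total hF hn
  have h4 := col_total hF hn
  simp only [mul_add, sum_add_distrib, ← mul_sum]
  rw [sum_congr rfl (fun p _ => rfl)] at h1
  linarith

end Pool.Agent.HJ4
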