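import Mathlib
import Pool.Agent.H46.GSum

/-!
From a packing of copies to the non-existence of a colouring without monochromatic
geometric lines.
-/

namespace Pool.Agent.HJ4

open Finset

theorem no_goodG {n M : ℕ} (hn : 1 ≤ n) (L : List (ℕ × ℕ × ℕ × ℕ × ℕ × ℕ))
    (hok : ∀ c ∈ L, 1 ≤ c.2.1 ∧ 1 ≤ c.2.2.1 ∧ 1 ≤ c.2.2.2.1 ∧ 1 ≤ c.2.2.2.2.1 ∧
      c.1 + c.2.1 + c.2.2.1 + c.2.2.2.1 + c.2.2.2.2.1 ≤ n)
    (sA sD : ℕ × ℕ × ℕ × ℕ × ℕ × ℕ → Finset (Fin 4) → ℕ)
    (hsA : ∀ c S, sA c S = c.1 + (if 0 ∈ S then 0 else c.2.1) + (if 1 ∈ S then 0 else c.2.2.1))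
    (hsD : ∀ c S, sD c S = (if 0 ∈ S then c.2.1 else 0) + (if 1 ∈ S then c.2.2.1 else 0) +
      (if 2 ∈ S then c.2.2.2.1 else 0) + (if 3 ∈ S then c.2.2.2.2.1 else 0))
    (hp : ∀ G : ℕ → ℕ → ℤ, (∀ a b, a < b → b ≤ n → 0 ≤ G a b) →
      (L.map fun c => (c.2.2.2.2.2 : ℤ) * ∑ S ∈ (univ : Finset (Finset (Fin 4))).erase ∅,
        G (sA c S) (sA c S + sD c S)).sum ≤
      ∑ p ∈ (range (n + 1) ×ˢ range (n + 1)).filter (fun p => p.1 < p.2),
        ((M * cap n p.1 p.2 : ℕ) : ℤ) * G p.1 p.2)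
    (hW : M * (12 * n + 6) < 2 * (L.map fun c => c.2.2.2.2.2).sum)
    (F : Pt n → ℤ) : ¬ GoodG F := by
  intro hF
  obtain ⟨T, hT⟩ : ∃ T : ℤ, T = (n.factorial : ℤ) * 2 ^ n := ⟨_, rfl⟩
  have hT0 : 0 < T := by
    rw [hT]
    have := n.factorial_pos
    positivity
  have h1 := hp (fun a b => - Qg F a (n - b)) (fun a b hab hb => by
    have := Qg_nonpos hF (a := a) (z := n - b) (by omega)
    linarith)
  have h2 : ∀ c ∈ L, (c.2.2.2.2.2 : ℤ) * (2 * T) ≤
      (c.2.2.2.2.2 : ℤ) * ∑ S ∈ (univ : Finset (Finset (Fin 4))).erase ∅,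
        - Qg F (sA c S) (n - (sA c S + sD c S)) := by
    intro c hc
    obtain ⟨k1, k2, k3, k4, k5⟩ := hok c hc
    refine mul_le_mul_of_nonneg_left ?_ (by positivity)
    have h3 := copy_Qg hF c.1 (n - (c.1 + c.2.1 + c.2.2.1 + c.2.2.2.1 + c.2.2.2.2.1))
      ![c.2.1, c.2.2.1, c.2.2.2.1, c.2.2.2.2.1] (by
        intro i
        fin_cases i
        · exact k1
        · exact k2
        · exact k3
        · exact k4) (by
        rw [Fin.sum_univ_four]
        simp only [Matrix.cons_val_zero, Matrix.cons_val_one, Matrix.cons_val]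
        omega)
    have h4 : ∀ S ∈ (univ : Finset (Finset (Fin 4))).erase ∅,
        Qg F (fa S c.1 ![c.2.1, c.2.2.1, c.2.2.2.1, c.2.2.2.2.1])
          (fz S (n - (c.1 + c.2.1 + c.2.2.1 + c.2.2.2.1 + c.2.2.2.2.1))
            ![c.2.1, c.2.2.1, c.2.2.2.1, c.2.2.2.2.1]) =
        Qg F (sA c S) (n - (sA c S + sD c S)) := by
      intro S _
      have e1 : fa S c.1 ![c.2.1, c.2.2.1, c.2.2.2.1, c.2.2.2.2.1] = sA c S := by
        rw [hsA]
        simp only [fa, Matrix.cons_val_zero, Matrix.cons_val_one, Matrix.cons_val]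
        omega
      have e2 : fz S (n - (c.1 + c.2.1 + c.2.2.1 + c.2.2.2.1 + c.2.2.2.2.1))
            ![c.2.1, c.2.2.1, c.2.2.2.1, c.2.2.2.2.1] = n - (sA c S + sD c S) := by
        rw [hsA, hsD]
        simp only [fz, Matrix.cons_val_zero, Matrix.cons_val_one, Matrix.cons_val]
        split_ifs <;> omega
      rw [e1, e2]
    rw [sum_congr rfl h4] at h3
    rw [sum_neg_distrib, hT]
    linarith
  have h3 : (L.map fun c => (c.2.2.2.2.2 : ℤ) * (2 * T)).sum ≤
      (L.map fun c => (c.2.2.2.2.2 : ℤ) * ∑ S ∈ (univ : Finset (Finset (Fin 4))).erase ∅,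
        - Qg F (sA c S) (n - (sA c S + sD c S))).sum := List.sum_le_sum h2
  have h4 : (L.map fun c => (c.2.2.2.2.2 : ℤ) * (2 * T)).sum =
      ((L.map fun c => c.2.2.2.2.2).sum : ℤ) * (2 * T) := by
    rw [List.sum_map_mul_right]
  have h5 := target_total hF.1 hn
  rw [← hT] at h5
  have h6 : ∑ p ∈ (range (n + 1) ×ˢ range (n + 1)).filter (fun p => p.1 < p.2),
        ((M * cap n p.1 p.2 : ℕ) : ℤ) * (- Qg F p.1 (n - p.2)) ≤
      ∑ p ∈ (range (n + 1) ×ˢ range (n + 1)).filter (fun p => p.1 < p.2),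
        (-(M : ℤ)) * (8 * phg F (false, false) (true, false) p.1 (n - p.2) +
          8 * phg F (false, false) (true, true) p.1 (n - p.2) +
          (cap n p.1 p.2 : ℤ) * (phg F (false, false) (false, true) p.1 (n - p.2) +
            phg F (true, false) (true, true) p.1 (n - p.2))) := by
    refine sum_le_sum fun p hp => ?_
    rw [mem_filter, mem_product, mem_range, mem_range] at hp
    have e1 := cross_nonpos hF (a := p.1) (z := n - p.2) (by omega)
    rw [Qg_eq]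
    have e2 : (cap n p.1 p.2 : ℤ) ≤ 4 := by
      unfold cap
      split_ifs <;> norm_num
    have e3 : 0 ≤ (M : ℤ) * ((4 - (cap n p.1 p.2 : ℤ)) *
        (-(phg F (false, false) (true, false) p.1 (n - p.2) +
          phg F (false, false) (true, true) p.1 (n - p.2)))) :=
      mul_nonneg (by positivity) (mul_nonneg (by linarith) (by linarith))
    push_cast
    linarith
  rw [← mul_sum] at h6
  have h7 : ((L.map fun c => c.2.2.2.2.2).sum : ℤ) * (2 * T) ≤ (M : ℤ) * (T * (12 * n + 6)) := by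
    have e1 := mul_le_mul_of_nonneg_left h5 (show (0 : ℤ) ≤ M by positivity)
    rw [← h4]
    refine h3.trans (h1.trans (h6.trans ?_))
    linarith
  have h8 : T * (2 * ((L.map fun c => c.2.2.2.2.2).sum : ℤ)) ≤ T * ((M : ℤ) * (12 * n + 6)) := by
    linarith
  have h9 := le_of_mul_le_mul_left h8 hT0
  have h10 : ((M * (12 * n + 6) : ℕ) : ℤ) < ((2 * (L.map fun c => c.2.2.2.2.2).sum : ℕ) : ℤ) := by
    exact_mod_cast hW
  have h11 : (((L.map fun c => c.2.2.2.2.2).sum : ℕ) : ℤ) =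
      (L.map fun c => (c.2.2.2.2.2 : ℤ)).sum := by
    rw [Nat.cast_list_sum, List.map_map]
    rfl
  rw [Nat.cast_mul 2, h11, Nat.cast_mul, Nat.cast_add, Nat.cast_mul] at h10
  norm_num at h10
  linarith

end Pool.Agent.HJ4
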