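import Mathlib
import Pool.Agent.helper45.CubeF
import Pool.Agent.H46.GMain

/-!
Translation between the four letters `Fin 4` and the pairs `(τ, u)`.
-/

namespace Pool.Agent.HJ4

open Finset Pool.Agent.helper45.Cube

/-- the letter of a pair -/
def tl : Bool × Bool → Fin 4
  | (false, false) => 0
  | (true, false) => 1
  | (true, true) => 2
  | (false, true) => 3

/-- a colouring without monochromatic edges gives a good function -/
theorem good_of_colorable {n : ℕ} (h : TwoColorable 4 n) : ∃ F : Pt n → ℤ, GoodG F := by
  classical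
  obtain ⟨c, hc⟩ := h
  refine ⟨fun x => if c (fun i => tl (x i)) = true then 1 else -1, fun x => ?_, ?_⟩
  · by_cases h : c (fun i => tl (x i)) = true <;> simp [h]
  · rintro x S ⟨i0, hi0⟩ ⟨h0, h1, h2⟩
    have key : ∀ y z : Pt n, (if c (fun i => tl (y i)) = true then (1 : ℤ) else -1) =
        (if c (fun i => tl (z i)) = true then 1 else -1) →
        c (fun i => tl (y i)) = c (fun i => tl (z i)) := by
      intro y z
      cases c (fun i => tl (y i)) <;> cases c (fun i => tl (z i)) <;> simp
    have e0 := key _ _ h0
    have e1 := key _ _ h1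
    have e2 := key _ _ h2
    let K : Fin n → Kind 4 := fun i =>
      if i ∈ S then (if (x i).2 = true then Kind.bwd else Kind.fwd) else Kind.const (tl (x i))
    have hK : ∀ d : Bool × Bool, (fun i => (K i).val (tl d)) = fun i => tl (Lg x S d i) := by
      intro d
      funext i
      simp only [K, Lg]
      by_cases hi : i ∈ S
      · rw [if_pos hi, if_pos hi]
        obtain ⟨d1, d2⟩ := d
        cases hx : (x i).2 <;> cases d1 <;> cases d2 <;> rfl
      · rw [if_neg hi, if_neg hi]
        rfl
    have hact : (K i0).active = true := by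
      simp only [K, hi0, if_true]
      split_ifs <;> rfl
    obtain ⟨y, hy, z, hz, hyz⟩ := hc _ (edge_of_kinds K i0 hact)
    have hall : ∀ t : Fin 4, c (fun i => (K i).val t) = c (fun i => tl (Lg x S (le4 0) i)) := by
      intro t
      have ht : t = tl (le4 2) ∨ t = tl (le4 0) ∨ t = tl (le4 1) ∨ t = tl (le4 3) := by
        revert t
        decide
      rcases ht with rfl | rfl | rfl | rfl
      · rw [hK, ← e1, ← e0]
      · rw [hK]
      · rw [hK, ← e0]
      · rw [hK, ← e2, ← e1, ← e0]
    rw [mem_image] at hy hz
    obtain ⟨s, _, rfl⟩ := hy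
    obtain ⟨t, _, rfl⟩ := hz
    rw [hall, hall t] at hyz
    exact hyz rfl

theorem not_colorable_of {n m : ℕ} (hnm : n ≤ m) (h : ∀ F : Pt n → ℤ, ¬ GoodG F) :
    ¬ TwoColorable 4 m := by
  intro hm
  obtain ⟨F, hF⟩ := good_of_colorable (colorable_mono (by norm_num) hnm hm)
  exact h F hF

end Pool.Agent.HJ4
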