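import Mathlib
import Pool.Agent.H46.HJCert
import Pool.Agent.H46.HJChain

/-!
Counting the copies and their lines by type.
-/

namespace Pool.Agent.HJ4

open Finset

theorem sum_aux1 (a : ℤ) (r : ℕ) :
    2 * ∑ l ∈ range r, (a - (l : ℤ)) = 2 * a * r - r * (r - 1) := by
  induction r with
  | zero => simp
  | succ r ih =>
    rw [sum_range_succ, mul_add, ih]
    push_cast
    ring

theorem sum_aux2 (a : ℤ) (r : ℕ) :
    6 * ∑ k ∈ range r, (a - (k : ℤ)) * (a - k + 3) =
      6 * r * (a ^ 2 + 3 * a) - 3 * (2 * a + 3) * (r * (r - 1)) + (r - 1) * r * (2 * r - 1) := by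
  induction r with
  | zero => simp
  | succ r ih =>
    rw [sum_range_succ, mul_add, ih]
    push_cast
    ring

theorem sum_K (n : ℕ) :
    6 * ∑ k ∈ range n, ∑ l ∈ range (n - k), (((n - k - l : ℕ) : ℤ) + 1) =
      (n : ℤ) * (n + 1) * (n + 5) := by
  have h1 : ∀ k ∈ range n, 2 * ∑ l ∈ range (n - k), (((n - k - l : ℕ) : ℤ) + 1) =
      ((n : ℤ) - k) * (n - k + 3) := by
    intro k hk
    rw [mem_range] at hk
    have h2 : ∀ l ∈ range (n - k), (((n - k - l : ℕ) : ℤ) + 1) = ((n : ℤ) - k + 1) - l := by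
      intro l hl
      rw [mem_range] at hl
      have : ((n - k - l : ℕ) : ℤ) = (n : ℤ) - k - l := by omega
      rw [this]
      ring
    rw [sum_congr rfl h2, sum_aux1]
    have : ((n - k : ℕ) : ℤ) = (n : ℤ) - k := by omega
    rw [this]
    ring
  have h3 : 2 * ∑ k ∈ range n, ∑ l ∈ range (n - k), (((n - k - l : ℕ) : ℤ) + 1) =
      ∑ k ∈ range n, ((n : ℤ) - k) * (n - k + 3) := by
    rw [mul_sum]
    exact sum_congr rfl h1
  have h4 := sum_aux2 n n
  have h5 : 2 * (6 * ∑ k ∈ range n, ∑ l ∈ range (n - k), (((n - k - l : ℕ) : ℤ) + 1)) =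
      2 * ((n : ℤ) * (n + 1) * (n + 5)) := by
    linear_combination 6 * h3 + h4
  linarith

theorem chain_total {n : ℕ} {F : (Fin n → Fin 4) → ℤ} (hF : ∀ x, F x = 1 ∨ F x = -1)
    (π : Equiv.Perm (Fin 4)) :
    -((n.factorial : ℤ) * (n * (n + 1) * (n + 5))) ≤ 12 * ∑ m ∈ Typ n, phi F (π 0) (π 1) m := by
  have h1 : ∑ m ∈ Typ n, phi F (π 0) (π 1) m = ∑ k ∈ range n, ∑ l ∈ range (n - k),
      ∑ m ∈ (Typ n).filter (fun m => m (π 2) = k ∧ m (π 3) = l), phi F (π 0) (π 1) m := by
    rw [← sum_fiberwise_of_maps_to (s := Typ n) (t := range n) (g := fun m => m (π 2))]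
    · refine sum_congr rfl fun k _ => ?_
      rw [← sum_fiberwise_of_maps_to (s := (Typ n).filter fun m => m (π 2) = k)
        (t := range (n - k)) (g := fun m => m (π 3))]
      · refine sum_congr rfl fun l _ => ?_
        rw [filter_filter]
      · intro m hm
        rw [mem_filter, mem_Typ, ← Equiv.sum_comp π, Fin.sum_univ_four] at hm
        rw [mem_range]
        omega
    · intro m hm
      rw [mem_Typ, ← Equiv.sum_comp π, Fin.sum_univ_four] at hm
      rw [mem_range]
      omega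
  have h2 : ∑ k ∈ range n, ∑ l ∈ range (n - k), -((n.factorial : ℤ) *
      (((n - k - l : ℕ) : ℤ) + 1)) ≤ ∑ k ∈ range n, ∑ l ∈ range (n - k),
      2 * ∑ m ∈ (Typ n).filter (fun m => m (π 2) = k ∧ m (π 3) = l), phi F (π 0) (π 1) m := by
    refine sum_le_sum fun k hk => sum_le_sum fun l hl => ?_
    rw [mem_range] at hk hl
    exact chain_ineq hF π (n - k - l) k l (by omega)
  have h3 := sum_K n
  simp only [← mul_sum, sum_neg_distrib] at h2
  rw [← h1] at h2
  have h4 : (n.factorial : ℤ) * (n * (n + 1) * (n + 5)) = 6 * ((n.factorial : ℤ) *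
      ∑ k ∈ range n, ∑ l ∈ range (n - k), (((n - k - l : ℕ) : ℤ) + 1)) := by
    rw [← h3]
    ring
  rw [h4]
  linarith

theorem exists_pi (a b : Fin 4) (hab : a ≠ b) : ∃ π : Equiv.Perm (Fin 4), π 0 = a ∧ π 1 = b := by
  revert a b
  decide

theorem Q_total {n : ℕ} {F : (Fin n → Fin 4) → ℤ} (hF : ∀ x, F x = 1 ∨ F x = -1) :
    -((n.factorial : ℤ) * (n * (n + 1) * (n + 5))) ≤ 2 * ∑ m ∈ Typ n, Q F m := by
  have h : ∀ a b : Fin 4, a ≠ b → -((n.factorial : ℤ) * (n * (n + 1) * (n + 5))) ≤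
      12 * ∑ m ∈ Typ n, phi F a b m := by
    intro a b hab
    obtain ⟨π, rfl, rfl⟩ := exists_pi a b hab
    exact chain_total hF π
  have h01 := h 0 1 (by decide)
  have h02 := h 0 2 (by decide)
  have h03 := h 0 3 (by decide)
  have h12 := h 1 2 (by decide)
  have h13 := h 1 3 (by decide)
  have h23 := h 2 3 (by decide)
  unfold Q six
  simp only [sum_add_distrib]
  linarith

/-- index set of the copies: `q` and `d = e + 1` are the block sizes -/
def Ic (n : ℕ) : Finset ((Fin 4 → ℕ) × (Fin 4 → ℕ)) :=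
  ((Fintype.piFinset fun _ => range (n + 1)) ×ˢ (Fintype.piFinset fun _ => range (n + 1))).filter
    fun x => ∑ i, x.1 i + ∑ i, (x.2 i + 1) = n

theorem mem_Ic {n : ℕ} {x : (Fin 4 → ℕ) × (Fin 4 → ℕ)} :
    x ∈ Ic n ↔ ∑ i, x.1 i + ∑ i, (x.2 i + 1) = n := by
  unfold Ic
  rw [mem_filter, mem_product, Fintype.mem_piFinset, Fintype.mem_piFinset]
  constructor
  · exact fun h => h.2
  · intro h
    refine ⟨⟨fun i => ?_, fun i => ?_⟩, h⟩
    · have := single_le_sum (f := x.1) (fun j _ => Nat.zero_le _) (mem_univ i)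
      rw [mem_range]
      omega
    · have := single_le_sum (f := fun i => x.2 i + 1) (fun j _ => Nat.zero_le _) (mem_univ i)
      rw [mem_range]
      omega

theorem card_Ic {n : ℕ} (hn : 4 ≤ n) : #(Ic n) = (n + 3).choose 7 := by
  have h1 : #(Ic n) = #(finsuppAntidiag (univ : Finset (Fin 4 ⊕ Fin 4)) (n - 4)) := by
    refine card_nbij' (fun x => Finsupp.equivFunOnFinite.symm (Sum.elim x.1 x.2))
      (fun f => (fun i => f (Sum.inl i), fun i => f (Sum.inr i))) ?_ ?_ ?_ ?_
    · intro x hx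
      rw [mem_coe, mem_Ic] at hx
      rw [mem_coe, mem_finsuppAntidiag]
      refine ⟨?_, fun _ _ => mem_univ _⟩
      rw [Fintype.sum_sum_type]
      simp only [Finsupp.equivFunOnFinite_symm_apply_apply, Sum.elim_inl, Sum.elim_inr]
      rw [sum_add_distrib] at hx
      simp only [sum_const, card_univ, Fintype.card_fin, smul_eq_mul, mul_one] at hx
      omega
    · intro f hf
      rw [mem_coe, mem_finsuppAntidiag] at hf
      have h2 := hf.1
      rw [Fintype.sum_sum_type] at h2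
      rw [mem_coe, mem_Ic, sum_add_distrib]
      simp only [sum_const, card_univ, Fintype.card_fin, smul_eq_mul, mul_one]
      omega
    · intro x _
      simp
    · intro f _
      ext x
      rcases x with x | x <;> simp
  rw [h1, card_finsuppAntidiag_nat_eq_choose]
  have h2 : #(univ : Finset (Fin 4 ⊕ Fin 4)) = 8 := by
    simp
  rw [h2, show 8 + (n - 4) - 1 = n + 3 by omega]
  rw [← Nat.choose_symm (show 7 ≤ n + 3 by omega)]
  congr 1

end Pool.Agent.HJ4
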