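import Mathlib
import Pool.Agent.H46.HJCount

/-!
Every two-colouring of the words of length `n ≥ 210` over four letters has a monochromatic
combinatorial line.
-/

namespace Pool.Agent.HJ4

open Finset

theorem card_fiber {n : ℕ} (S : Finset (Fin 4)) (hS : S ≠ ∅) (m : Fin 4 → ℕ) :
    #((Ic n).filter fun x => ty S x.1 (fun i => x.2 i + 1) = m) ≤
      (∏ i ∈ Sᶜ, m i) * (n - ∑ i, m i - 1).choose (#S - 1) := by
  classical
  have key : ∀ x ∈ (Ic n).filter fun x => ty S x.1 (fun i => x.2 i + 1) = m,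
      (∀ i ∈ S, x.1 i = m i) ∧ (∀ i ∈ Sᶜ, x.1 i + (x.2 i + 1) = m i) ∧
        ∑ i ∈ S, x.2 i + #S = n - ∑ i, m i ∧ ∑ i ∈ S, x.2 i + #S + ∑ i, m i = n := by
    intro x hx
    rw [mem_filter, mem_Ic] at hx
    obtain ⟨h1, h2⟩ := hx
    have h3 : ∀ i, x.1 i + (if i ∈ S then 0 else x.2 i + 1) = m i := fun i => congrFun h2 i
    have h4 : ∀ i ∈ S, x.1 i = m i := by
      intro i hi
      have := h3 i
      rw [if_pos hi] at this
      exact this
    have h5 : ∀ i ∈ Sᶜ, x.1 i + (x.2 i + 1) = m i := by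
      intro i hi
      have := h3 i
      rw [if_neg (mem_compl.1 hi)] at this
      exact this
    have h6 : ∑ i, m i = ∑ i ∈ S, x.1 i + ∑ i ∈ Sᶜ, (x.1 i + (x.2 i + 1)) := by
      rw [← sum_add_sum_compl S, sum_congr rfl h4, sum_congr rfl h5]
    rw [← sum_add_sum_compl S, ← sum_add_sum_compl S (fun i => x.2 i + 1)] at h1
    rw [sum_add_distrib] at h6
    have h7 : ∑ i ∈ S, (x.2 i + 1) = ∑ i ∈ S, x.2 i + #S := by
      rw [sum_add_distrib, sum_const, smul_eq_mul, mul_one]
    exact ⟨h4, h5, by omega, by omega⟩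
  by_cases hp : n - ∑ i, m i < #S
  · have : (Ic n).filter (fun x => ty S x.1 (fun i => x.2 i + 1) = m) = ∅ := by
      rw [eq_empty_iff_forall_notMem]
      intro x hx
      have := (key x hx).2.2.1
      omega
    rw [this]
    simp
  have hSpos : 0 < #S := card_pos.2 (nonempty_iff_ne_empty.2 hS)
  have hc : #((Sᶜ.pi fun i => range (m i)) ×ˢ finsuppAntidiag S (n - ∑ i, m i - #S)) =
      (∏ i ∈ Sᶜ, m i) * (n - ∑ i, m i - 1).choose (#S - 1) := by
    rw [card_product, card_pi, card_finsuppAntidiag_nat_eq_choose]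
    congr 1
    · simp
    · rw [show #S + (n - ∑ i, m i - #S) - 1 = n - ∑ i, m i - 1 by omega,
        ← Nat.choose_symm (show #S - 1 ≤ n - ∑ i, m i - 1 by omega)]
      congr 1
      omega
  rw [← hc]
  refine card_le_card_of_injOn (fun x => (fun i _ => x.2 i,
    Finsupp.equivFunOnFinite.symm fun i => if i ∈ S then x.2 i else 0)) ?_ ?_
  · intro x hx
    obtain ⟨h1, h2, h3, h4⟩ := key x hx
    rw [mem_coe, mem_product, mem_pi, mem_finsuppAntidiag]
    refine ⟨fun i hi => ?_, ?_, ?_⟩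
    · have := h2 i hi
      rw [mem_range]
      dsimp only
      omega
    · have : ∑ i ∈ S, (if i ∈ S then x.2 i else 0) = ∑ i ∈ S, x.2 i :=
        sum_congr rfl fun i hi => by rw [if_pos hi]
      simp only [Finsupp.equivFunOnFinite_symm_apply_apply]
      omega
    · intro i hi
      rw [Finsupp.mem_support_iff] at hi
      by_contra hcon
      exact hi (by simp [hcon])
  · intro x hx y hy hxy
    obtain ⟨h1, h2, h3, h4⟩ := key x hx
    obtain ⟨g1, g2, g3, g4⟩ := key y hy
    rw [Prod.mk.injEq] at hxy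
    obtain ⟨e1, e2⟩ := hxy
    have e3 : ∀ i, x.2 i = y.2 i := by
      intro i
      by_cases hi : i ∈ S
      · have := DFunLike.congr_fun e2 i
        simpa [hi] using this
      · exact congrFun (congrFun e1 i) (mem_compl.2 hi)
    have e4 : ∀ i, x.1 i = y.1 i := by
      intro i
      by_cases hi : i ∈ S
      · rw [h1 i hi, g1 i hi]
      · have a1 := h2 i (mem_compl.2 hi)
        have a2 := g2 i (mem_compl.2 hi)
        have a3 := e3 i
        omega
    exact Prod.ext (funext e4) (funext e3)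

theorem choose_three (x : ℕ) : 6 * ((x.choose 3 : ℕ) : ℤ) = (x : ℤ) * (x - 1) * (x - 2) := by
  induction x with
  | zero => simp
  | succ x ih =>
    have h2 : 2 * ((x.choose 2 : ℕ) : ℤ) = (x : ℤ) * (x - 1) := by
      clear ih
      induction x with
      | zero => simp
      | succ x ih =>
        rw [Nat.choose_succ_succ' x 1, Nat.choose_one_right]
        push_cast
        linarith
    rw [Nat.choose_succ_succ' x 2]
    push_cast
    linarith

theorem choose_two (x : ℕ) : 2 * ((x.choose 2 : ℕ) : ℤ) = (x : ℤ) * (x - 1) := by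
  induction x with
  | zero => simp
  | succ x ih =>
    rw [Nat.choose_succ_succ' x 1, Nat.choose_one_right]
    push_cast
    linarith

theorem fun_le (a b c d P : ℕ) :
    (P.choose 3) + (a + b + c + d) * P.choose 2 +
      (a * b + a * c + a * d + b * c + b * d + c * d) * P +
      (a * b * c + a * b * d + a * c * d + b * c * d) ≤ (P + (a + b + c + d)).choose 3 := by
  have h1 := choose_three P
  have h2 := choose_two P
  have h3 := choose_three (P + (a + b + c + d))
  have hn : ∀ x : ℕ, 0 ≤ (x : ℤ) * (x - 1) := by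
    intro x
    rw [← choose_two]
    positivity
  have hn3 : ∀ x : ℕ, 0 ≤ (x : ℤ) * (x - 1) * (x - 2) := by
    intro x
    rw [← choose_three]
    positivity
  zify
  push_cast at h3
  have e : 6 * ((((P + (a + b + c + d)).choose 3 : ℕ) : ℤ) - (((P.choose 3 : ℕ) : ℤ) +
      (a + b + c + d) * ((P.choose 2 : ℕ) : ℤ) +
      (a * b + a * c + a * d + b * c + b * d + c * d) * P +
      (a * b * c + a * b * d + a * c * d + b * c * d))) =
      3 * P * ((a : ℤ) * (a - 1) + b * (b - 1) + c * (c - 1) + d * (d - 1)) +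
      ((a : ℤ) * (a - 1) * (a - 2) + b * (b - 1) * (b - 2) + c * (c - 1) * (c - 2) +
        d * (d - 1) * (d - 2)) +
      3 * ((a : ℤ) * (a - 1) * (b + c + d) + b * (b - 1) * (a + c + d) +
        c * (c - 1) * (a + b + d) + d * (d - 1) * (a + b + c)) := by
    linear_combination h3 - h1 - 3 * ((a : ℤ) + b + c + d) * h2
  have p1 : 0 ≤ 3 * P * ((a : ℤ) * (a - 1) + b * (b - 1) + c * (c - 1) + d * (d - 1)) := by
    have := hn a
    have := hn b
    have := hn c
    have := hn d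
    positivity
  have p2 : 0 ≤ ((a : ℤ) * (a - 1) * (a - 2) + b * (b - 1) * (b - 2) + c * (c - 1) * (c - 2) +
        d * (d - 1) * (d - 2)) := by
    have := hn3 a
    have := hn3 b
    have := hn3 c
    have := hn3 d
    linarith
  have p3 : 0 ≤ 3 * ((a : ℤ) * (a - 1) * (b + c + d) + b * (b - 1) * (a + c + d) +
        c * (c - 1) * (a + b + d) + d * (d - 1) * (a + b + c)) := by
    have q1 := mul_nonneg (hn a) (show (0 : ℤ) ≤ b + c + d by positivity)
    have q2 := mul_nonneg (hn b) (show (0 : ℤ) ≤ a + c + d by positivity)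
    have q3 := mul_nonneg (hn c) (show (0 : ℤ) ≤ a + b + d by positivity)
    have q4 := mul_nonneg (hn d) (show (0 : ℤ) ≤ a + b + c by positivity)
    linarith
  linarith

theorem univ_erase : (univ : Finset (Finset (Fin 4))).erase ∅ =
    {{0}, {1}, {2}, {3}, {0, 1}, {0, 2}, {0, 3}, {1, 2}, {1, 3}, {2, 3},
      {0, 1, 2}, {0, 1, 3}, {0, 2, 3}, {1, 2, 3}, {0, 1, 2, 3}} := by
  decide

theorem mult_le {n : ℕ} (m : Fin 4 → ℕ) (hm : ∑ i, m i < n) :
    ∑ S ∈ (univ : Finset (Finset (Fin 4))).erase ∅,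
      (∏ i ∈ Sᶜ, m i) * (n - ∑ i, m i - 1).choose (#S - 1) ≤ (n - 1).choose 3 := by
  rw [univ_erase]
  have h := fun_le (m 0) (m 1) (m 2) (m 3) (n - ∑ i, m i - 1)
  rw [show n - 1 = (n - ∑ i, m i - 1) + (m 0 + m 1 + m 2 + m 3) by
    rw [Fin.sum_univ_four] at hm ⊢
    omega]
  refine le_trans (le_of_eq ?_) h
  generalize n - ∑ i, m i - 1 = P
  have hprod : ∀ S : Finset (Fin 4), ∏ i ∈ Sᶜ, m i = (if (0 : Fin 4) ∈ S then 1 else m 0) *
      (if (1 : Fin 4) ∈ S then 1 else m 1) * (if (2 : Fin 4) ∈ S then 1 else m 2) *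
      (if (3 : Fin 4) ∈ S then 1 else m 3) := by
    intro S
    have h1 : ∏ i ∈ Sᶜ, m i = ∏ i, if i ∈ S then 1 else m i := by
      rw [← prod_filter_mul_prod_filter_not univ (fun i => i ∈ Sᶜ)]
      have a1 : ∏ i ∈ univ.filter (fun i => i ∈ Sᶜ), (if i ∈ S then 1 else m i) =
          ∏ i ∈ Sᶜ, m i := by
        rw [filter_mem_eq_inter, univ_inter]
        exact prod_congr rfl fun i hi => by rw [if_neg (mem_compl.1 hi)]
      have a2 : ∏ i ∈ univ.filter (fun i => ¬ i ∈ Sᶜ), (if i ∈ S then 1 else m i) = 1 := by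
        refine prod_eq_one fun i hi => ?_
        rw [mem_filter, mem_compl, not_not] at hi
        rw [if_pos hi.2]
      rw [a1, a2, mul_one]
    rw [h1, Fin.prod_univ_four]
  simp only [hprod]
  iterate 14 rw [sum_insert (by decide)]
  rw [sum_singleton]
  have c1 : #({0} : Finset (Fin 4)) = 1 := by decide
  have c2 : #({1} : Finset (Fin 4)) = 1 := by decide
  have c3 : #({2} : Finset (Fin 4)) = 1 := by decide
  have c4 : #({3} : Finset (Fin 4)) = 1 := by decide
  have c5 : #({0, 1} : Finset (Fin 4)) = 2 := by decide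
  have c6 : #({0, 2} : Finset (Fin 4)) = 2 := by decide
  have c7 : #({0, 3} : Finset (Fin 4)) = 2 := by decide
  have c8 : #({1, 2} : Finset (Fin 4)) = 2 := by decide
  have c9 : #({1, 3} : Finset (Fin 4)) = 2 := by decide
  have c10 : #({2, 3} : Finset (Fin 4)) = 2 := by decide
  have c11 : #({0, 1, 2} : Finset (Fin 4)) = 3 := by decide
  have c12 : #({0, 1, 3} : Finset (Fin 4)) = 3 := by decide
  have c13 : #({0, 2, 3} : Finset (Fin 4)) = 3 := by decide
  have c14 : #({1, 2, 3} : Finset (Fin 4)) = 3 := by decide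
  have c15 : #({0, 1, 2, 3} : Finset (Fin 4)) = 4 := by decide
  simp only [c1, c2, c3, c4, c5, c6, c7, c8, c9, c10, c11, c12, c13, c14, c15]
  simp
  ring

theorem ty_mem {n : ℕ} {x : (Fin 4 → ℕ) × (Fin 4 → ℕ)} (hx : x ∈ Ic n) {S : Finset (Fin 4)}
    (hS : S ≠ ∅) : ty S x.1 (fun i => x.2 i + 1) ∈ Typ n := by
  rw [mem_Ic] at hx
  rw [mem_Typ]
  unfold ty
  rw [sum_add_distrib]
  obtain ⟨i, hi⟩ := nonempty_iff_ne_empty.2 hS
  have h1 : ∑ j, (if j ∈ S then 0 else x.2 j + 1) < ∑ j, (x.2 j + 1) := by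
    refine sum_lt_sum (fun j _ => ?_) ⟨i, mem_univ i, ?_⟩
    · split_ifs
      · exact Nat.zero_le _
      · exact le_rfl
    · rw [if_pos hi]
      exact Nat.succ_pos _
  exact lt_of_lt_of_eq (Nat.add_lt_add_left h1 _) hx

theorem double_count {n : ℕ} (G : (Fin 4 → ℕ) → ℤ) (hG : ∀ m ∈ Typ n, 0 ≤ G m) :
    ∑ x ∈ Ic n, ∑ S ∈ (univ : Finset (Finset (Fin 4))).erase ∅, G (ty S x.1 (fun i => x.2 i + 1)) ≤
      ((n - 1).choose 3 : ℤ) * ∑ m ∈ Typ n, G m := by
  rw [sum_comm]
  have h1 : ∀ S ∈ (univ : Finset (Finset (Fin 4))).erase ∅,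
      ∑ x ∈ Ic n, G (ty S x.1 (fun i => x.2 i + 1)) =
      ∑ m ∈ Typ n, (#((Ic n).filter fun x => ty S x.1 (fun i => x.2 i + 1) = m) : ℤ) * G m := by
    intro S hS
    rw [← sum_fiberwise_of_maps_to (s := Ic n) (t := Typ n)
      (g := fun x => ty S x.1 (fun i => x.2 i + 1)) (fun x hx => ty_mem hx (ne_of_mem_erase hS))]
    refine sum_congr rfl fun m _ => ?_
    rw [sum_congr rfl (g := fun _ => G m) (fun x hx => by rw [(mem_filter.1 hx).2]), sum_const,
      nsmul_eq_mul]
  rw [sum_congr rfl h1, sum_comm, mul_sum]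
  refine sum_le_sum fun m hm => ?_
  rw [← sum_mul]
  refine mul_le_mul_of_nonneg_right ?_ (hG m hm)
  have h2 : ∑ S ∈ (univ : Finset (Finset (Fin 4))).erase ∅,
      #((Ic n).filter fun x => ty S x.1 (fun i => x.2 i + 1) = m) ≤ (n - 1).choose 3 :=
    (sum_le_sum fun S hS => card_fiber S (ne_of_mem_erase hS) m).trans (mult_le m (mem_Typ.1 hm))
  exact_mod_cast h2

theorem choose_seven {n : ℕ} (hn : 1 ≤ n) :
    840 * (n + 3).choose 7 = (n + 3) * (n + 2) * (n + 1) * n * (n - 1).choose 3 := by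
  have h1 := Nat.add_one_mul_choose_eq (n + 2) 6
  have h2 := Nat.add_one_mul_choose_eq (n + 1) 5
  have h3 := Nat.add_one_mul_choose_eq n 4
  have h4 := Nat.add_one_mul_choose_eq (n - 1) 3
  rw [show n - 1 + 1 = n by omega] at h4
  rw [show n + 2 + 1 = n + 3 by omega] at h1
  rw [show n + 1 + 1 = n + 2 by omega] at h2
  norm_num at h1 h2 h3 h4
  calc 840 * (n + 3).choose 7 = 120 * ((n + 3).choose 7 * 7) := by ring
    _ = 120 * ((n + 3) * (n + 2).choose 6) := by rw [h1]
    _ = 20 * (n + 3) * ((n + 2).choose 6 * 6) := by ring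
    _ = 20 * (n + 3) * ((n + 2) * (n + 1).choose 5) := by rw [h2]
    _ = 4 * (n + 3) * (n + 2) * ((n + 1).choose 5 * 5) := by ring
    _ = 4 * (n + 3) * (n + 2) * ((n + 1) * n.choose 4) := by rw [h3]
    _ = (n + 3) * (n + 2) * (n + 1) * (n.choose 4 * 4) := by ring
    _ = (n + 3) * (n + 2) * (n + 1) * n * (n - 1).choose 3 := by rw [← h4]; ring

theorem not_good {n : ℕ} (hn : 210 ≤ n) (F : (Fin n → Fin 4) → ℤ) : ¬ Good F := by
  intro hF
  have h1 : ∑ x ∈ Ic n, ∑ S ∈ (univ : Finset (Finset (Fin 4))).erase ∅,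
      Q F (ty S x.1 (fun i => x.2 i + 1)) ≤ ∑ x ∈ Ic n, (-2 * (n.factorial : ℤ)) :=
    sum_le_sum fun x hx => copy_Q hF x.1 (fun i => x.2 i + 1) (fun i => Nat.succ_pos _)
      (mem_Ic.1 hx)
  rw [sum_const, nsmul_eq_mul, card_Ic (by omega)] at h1
  have h2 := double_count (n := n) (fun m => - Q F m)
    (fun m hm => by
      have := Q_nonpos hF m (mem_Typ.1 hm)
      linarith)
  simp only [sum_neg_distrib] at h2
  have h3 := Q_total hF.1
  have hf : (0 : ℤ) < n.factorial := by exact_mod_cast n.factorial_pos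
  have hc : (0 : ℤ) < (n - 1).choose 3 := by
    exact_mod_cast Nat.choose_pos (show 3 ≤ n - 1 by omega)
  have h4 : (840 : ℤ) * (n + 3).choose 7 = (n + 3) * (n + 2) * (n + 1) * n * (n - 1).choose 3 := by
    exact_mod_cast choose_seven (show 1 ≤ n by omega)
  generalize hK : ((n - 1).choose 3 : ℤ) = K at *
  generalize hL : ((n + 3).choose 7 : ℤ) = L at *
  generalize ∑ m ∈ Typ n, Q F m = T at *
  have h5 : 2 * (n.factorial : ℤ) * L ≤ K * (-T) := by linarith
  have h6 : 4 * (n.factorial : ℤ) * L ≤ K * ((n.factorial : ℤ) * (n * (n + 1) * (n + 5))) := by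
    have := mul_le_mul_of_nonneg_left (show -(2 * T) ≤
      (n.factorial : ℤ) * (n * (n + 1) * (n + 5)) by linarith) hc.le
    linarith
  have h7 : (n.factorial : ℤ) * (4 * (840 * L)) ≤
      (n.factorial : ℤ) * (840 * (K * (n * (n + 1) * (n + 5)))) := by linarith
  have h8 := le_of_mul_le_mul_left h7 hf
  rw [h4] at h8
  have hn' : (210 : ℤ) ≤ n := by exact_mod_cast hn
  have h9 : (0 : ℤ) < K * (n * (n + 1)) := by positivity
  have h10 : K * (n * (n + 1)) * (4 * ((n + 3) * (n + 2))) ≤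
      K * (n * (n + 1)) * (840 * ((n : ℤ) + 5)) := by linarith
  have h11 := le_of_mul_le_mul_left h10 h9
  nlinarith

theorem hj {n : ℕ} (hn : 210 ≤ n) (f : (Fin n → Fin 4) → Bool) :
    ∃ l : Combinatorics.Line (Fin 4) (Fin n), l.IsMono f := by
  by_contra hcon
  push Not at hcon
  refine not_good hn (fun x => if f x then 1 else -1) ⟨fun x => ?_, ?_⟩
  · by_cases h : f x <;> simp [h]
  · rintro t ht ⟨h0, h1, h2⟩
    refine hcon ⟨t, ht⟩ ⟨f (ev t 0), fun a => ?_⟩
    have key : ∀ x y, (if f x then (1 : ℤ) else -1) = (if f y then 1 else -1) → f x = f y := by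
      intro x y
      cases f x <;> cases f y <;> simp
    have e0 := key _ _ h0
    have e1 := key _ _ h1
    have e2 := key _ _ h2
    have ha : a = 0 ∨ a = 1 ∨ a = 2 ∨ a = 3 := by
      revert a
      decide
    show f (ev t a) = f (ev t 0)
    rcases ha with rfl | rfl | rfl | rfl
    · rfl
    · exact e0.symm
    · rw [e0, e1]
    · rw [e0, e1, e2]

end Pool.Agent.HJ4
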